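import Pool.Agent.L7h99.SC.Trace
import Pool.Agent.L7h99.LS.GT

set_option autoImplicit false

/-!
# Golden-Thompson with a gain
-/

open MeasureTheory Set Filter Topology Real
open scoped ENNReal

namespace Pool.Agent.L7h99.SC

open Pool.Agent.L7h99.LS

variable {d : ℕ}

theorem G_integrable {τ : ℝ} (hτ : 0 < τ) (x : Fin d → ℝ) : Integrable fun y => G τ (x - y) := by
  refine ⟨((G_cont τ).comp (by fun_prop)).aestronglyMeasurable, ?_⟩
  rw [hasFiniteIntegral_iff_ofReal (Eventually.of_forall fun y => G_nonneg _ _),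
    (Pool.Agent.L7h76.LS.t_SEMI d τ τ hτ hτ x x).2]
  exact ENNReal.one_lt_top

theorem G_integral {τ : ℝ} (hτ : 0 < τ) (x : Fin d → ℝ) : ∫ y, G τ (x - y) = 1 := by
  rw [integral_eq_lintegral_of_nonneg_ae (Eventually.of_forall fun y => G_nonneg _ _)
    ((G_cont τ).comp (by fun_prop)).aestronglyMeasurable,
    (Pool.Agent.L7h76.LS.t_SEMI d τ τ hτ hτ x x).2]
  simp

/-- The limit argument. -/
theorem pow_limit (s u Λ Z : ℝ) (hΛ : 0 < Λ) (hZ : 0 < Z)
    (h : ∀ᶠ l : ℕ in atTop, 0 ≤ Λ + s * u / 2 ^ (l + 1) →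
      (Λ + s * u / 2 ^ (l + 1)) ^ (2 ^ (l + 1)) ≤ Λ ^ (2 ^ (l + 1) - 1) * Z) :
    s * u ≤ Λ * (Real.log Z - Real.log Λ) := by
  have hu2 : Tendsto (fun m : ℕ => (m : ℝ) * (s * u / (Λ * m))) atTop (𝓝 (s * u / Λ)) := by
    refine tendsto_const_nhds.congr' ?_
    filter_upwards [eventually_ge_atTop 1] with m hm
    have : (m : ℝ) ≠ 0 := by positivity
    field_simp
  have hlim := Real.tendsto_one_add_pow_exp_of_tendsto hu2
  have hsub : Tendsto (fun l : ℕ => 2 ^ (l + 1)) atTop (atTop : Filter ℕ) :=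
    (tendsto_pow_atTop_atTop_of_one_lt (by norm_num : (1:ℕ) < 2)).comp (tendsto_add_atTop_nat 1)
  have hlim2 := hlim.comp hsub
  have hpos : ∀ᶠ l : ℕ in atTop, 0 ≤ Λ + s * u / 2 ^ (l + 1) := by
    have h1 : Tendsto (fun m : ℕ => Λ + s * u / m) atTop (𝓝 (Λ + 0)) :=
      Tendsto.const_add _ (tendsto_const_nhds.div_atTop tendsto_natCast_atTop_atTop)
    have h2 := h1.comp hsub
    rw [add_zero] at h2
    refine (h2.eventually (lt_mem_nhds hΛ)).mono fun l hl => ?_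
    simp only [Function.comp] at hl
    push_cast at hl
    exact hl.le
  have hle : ∀ᶠ l : ℕ in atTop,
      ((fun m : ℕ => (1 + s * u / (Λ * m)) ^ m) ∘ fun l : ℕ => 2 ^ (l + 1)) l ≤ Z / Λ := by
    filter_upwards [hpos, h] with l hl h0
    have h1 := h0 hl
    simp only [Function.comp]
    have e1 : (1 + s * u / (Λ * ((2 ^ (l + 1) : ℕ) : ℝ))) = (Λ + s * u / 2 ^ (l + 1)) / Λ := by
      push_cast
      field_simp
    rw [e1, div_pow]
    have e2 : Λ ^ (2 ^ (l + 1)) = Λ ^ (2 ^ (l + 1) - 1) * Λ := by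
      rw [← pow_succ]
      congr 1
      have : 1 ≤ 2 ^ (l + 1) := Nat.one_le_two_pow
      omega
    rw [e2, div_le_div_iff₀ (by positivity) hΛ]
    calc _ ≤ Λ ^ (2 ^ (l + 1) - 1) * Z * Λ := mul_le_mul_of_nonneg_right h1 hΛ.le
      _ = _ := by ring
  have hfin : Real.exp (s * u / Λ) ≤ Z / Λ := le_of_tendsto hlim2 hle
  have h3 : s * u / Λ ≤ Real.log (Z / Λ) := (Real.le_log_iff_exp_le (by positivity)).2 hfin
  rw [Real.log_div hZ.ne' hΛ.ne', div_le_iff₀ hΛ] at h3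
  linarith

theorem gti_step (hM : S_MIX) (hH : S_HOL) (hC : S_SCH) (hJ : S_JJ) (n : ℕ)
    (f : Fin n → (Fin d → ℝ) → ℝ) (hf : ∀ i, ContDiff ℝ 1 (f i))
    (hfc : ∀ i, HasCompactSupport (f i)) (hG : Gram1 f) (Ω : Set (Fin d → ℝ))
    (hΩ : volume Ω ≠ ∞) (hf0 : ∀ i, ∀ x ∉ Ω, f i x = 0) (δ : ℝ) (hδ : 0 < δ) (j i : ℕ)
    (s : ℝ) (hs : 0 < s) (hV : 0 < (volume Ω).toReal) (S : ℝ)
    (hS0 : 0 ≤ S) (hS : S ≤ ∑ i', ∫ x, ∫ y, f i' x * (DD' (s / 2 ^ (j + 1 + i)) δ f x ^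
      (((2:ℝ) ^ (j + 1))⁻¹ / 4) * (G (s / 2 ^ (j + 1 + i)) (x - y) *
        DD' (s / 2 ^ (j + 1 + i)) δ f y ^ (((2:ℝ) ^ (j + 1))⁻¹ / 4)) * f i' y)) :
    S ^ (2 ^ (j + 1 + i)) ≤ (∫ x, den f x) ^ (2 ^ (j + 1 + i) - 1) *
      ((volume Ω).toReal * ((√((4 * π * s) ^ 2 * (1 - (((2:ℝ) ^ (j + 1))⁻¹) ^ 2)))⁻¹ ^ d) ^
        (1 / 2 : ℝ)) := by
  have : IsFiniteMeasure (volume.restrict Ω) := ⟨by
    rw [Measure.restrict_apply_univ]; exact lt_of_le_of_ne le_top hΩ⟩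
  set τ : ℝ := s / 2 ^ (j + 1 + i) with hτ
  have hτ0 : 0 < τ := by positivity
  set x₀ : ℝ := ((2:ℝ) ^ (j + 1))⁻¹ with hx₀
  have hx0 : 0 < x₀ := by positivity
  have hdc : Continuous (den f) := continuous_finsetSum _ fun i _ => (hf i).continuous.pow 2
  have hd0 : ∀ x, 0 ≤ den f x := fun x => Finset.sum_nonneg fun i _ => sq_nonneg _
  set F : (Fin d → ℝ) → ℝ := fun y => √(den f y + δ) with hFd
  have hFc : Continuous F := (hdc.add continuous_const).sqrt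
  have hF0 : ∀ x, √δ ≤ F x := fun x => Real.sqrt_le_sqrt (by linarith [hd0 x])
  have hδ' : 0 < √δ := Real.sqrt_pos.2 hδ
  choose C hC0 hC' using fun i => bd_of_cont (hf i).continuous (hfc i)
  have hdle : ∀ x, den f x ≤ ∑ i, C i ^ 2 := fun x => Finset.sum_le_sum fun i _ =>
    sq_le_sq' (by linarith [neg_abs_le (f i x), (hC' i).le x]) ((le_abs_self _).trans ((hC' i).le x))
  set B : ℝ := √(∑ i, C i ^ 2 + δ) with hB
  have hFB : ∀ x, F x ≤ B := fun x => Real.sqrt_le_sqrt (by linarith [hdle x])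
  have hBF : Bd F B := ⟨hFc.measurable, fun x => by
    rw [abs_of_nonneg (hδ'.le.trans (hF0 x))]; exact hFB x⟩
  have hGi : ∀ x, Integrable fun y => G τ (x - y) * F y := fun x =>
    (G_integrable hτ0 x).mul_bdd (c := B) hFc.aestronglyMeasurable
      (Eventually.of_forall fun y => by rw [Real.norm_eq_abs]; exact hBF.le y)
  set GF : (Fin d → ℝ) → ℝ := Hv τ F with hGFd
  have hGFm : Measurable GF := by
    have hm : Measurable (Function.uncurry fun x y : Fin d → ℝ => G τ (x - y) * F y) := by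
      have : Continuous fun p : (Fin d → ℝ) × (Fin d → ℝ) => G τ (p.1 - p.2) * F p.2 :=
        ((G_cont τ).comp (by fun_prop)).mul (hFc.comp continuous_snd)
      exact this.measurable
    exact (hm.stronglyMeasurable.integral_prod_right (ν := volume)).measurable
  have hGF0 : ∀ x, √δ ≤ GF x := fun x => by
    have h1 : ∫ y, G τ (x - y) * √δ ≤ ∫ y, G τ (x - y) * F y :=
      integral_mono ((G_integrable hτ0 x).mul_const _) (hGi x) fun y =>
        mul_le_mul_of_nonneg_left (hF0 y) (G_nonneg _ _)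
    rw [integral_mul_const, G_integral hτ0, one_mul] at h1
    exact h1
  have hFG : ∀ x, ∫⁻ y, E τ x y * ENNReal.ofReal (F y) ≤ ENNReal.ofReal (GF x) := fun x => by
    rw [hGFd]
    show _ ≤ ENNReal.ofReal (∫ y, G τ (x - y) * F y)
    rw [ofReal_integral_eq_lintegral_ofReal (hGi x) (Eventually.of_forall fun y =>
      mul_nonneg (G_nonneg _ _) (hδ'.le.trans (hF0 y)))]
    refine lintegral_mono fun y => ?_
    rw [ENNReal.ofReal_mul (G_nonneg _ _)]
    exact le_rfl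
  have htr := trace_bound hM hH hC hJ Ω hΩ F GF hFc.measurable hGFm
    (fun x => hδ'.trans_le (hF0 x)) (fun x => hδ'.trans_le (hGF0 x)) j i τ hτ0 hFG
  have hR : 16 * π ^ 2 * ((2 ^ (j + 1) - 1) * (2 ^ i * τ)) *
        (2 * (2 ^ i * τ) + ((2 ^ (j + 1) - 1) * (2 ^ i * τ))) =
      (4 * π * s) ^ 2 * (1 - x₀ ^ 2) := by
    have e1 : 2 ^ i * τ = x₀ * s := by
      rw [hτ, hx₀, pow_add]
      field_simp
    have e2 : (2:ℝ) ^ (j + 1) = x₀⁻¹ := by rw [hx₀, inv_inv]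
    rw [e1, e2]
    field_simp
    ring
  rw [hR] at htr
  set Z : ℝ := (volume Ω).toReal * ((√((4 * π * s) ^ 2 * (1 - x₀ ^ 2)))⁻¹ ^ d) ^ (1 / 2 : ℝ) with hZ
  set a : ℝ := x₀ / 4 with ha
  have ha0 : 0 < a := by positivity
  set D : (Fin d → ℝ) → ℝ := DD' τ δ f with hDd
  have hDe : ∀ x, D x = F x / GF x := fun x => rfl
  have hD0 : ∀ x, 0 < D x := fun x => div_pos (hδ'.trans_le (hF0 x)) (hδ'.trans_le (hGF0 x))
  have hDB : ∀ x, D x ≤ B / √δ := fun x =>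
    div_le_div₀ (hδ'.le.trans ((hF0 x).trans (hFB x))) (hFB x) hδ' (hGF0 x)
  have hDm : Measurable D := hFc.measurable.div hGFm
  set k : (Fin d → ℝ) → (Fin d → ℝ) → ℝ := fun x y => D x ^ a * (G τ (x - y) * D y ^ a) with hk
  have hDa : ∀ x, D x ^ a ≤ (B / √δ) ^ a := fun x => Real.rpow_le_rpow (hD0 x).le (hDB x) ha0.le
  have hDa0 : ∀ x, 0 ≤ D x ^ a := fun x => Real.rpow_nonneg (hD0 x).le _
  have hKer : Ker k ((B / √δ) ^ a * ((√(4 * π * τ))⁻¹ ^ d * (B / √δ) ^ a)) := by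
    refine ⟨?_, fun x y => ?_, fun x y => ?_, fun x y => ?_⟩
    · have hGm : Measurable fun p : (Fin d → ℝ) × (Fin d → ℝ) => G τ (p.1 - p.2) :=
        ((G_cont τ).comp (by fun_prop)).measurable
      exact ((hDm.comp measurable_fst).pow_const a).mul
        (hGm.mul ((hDm.comp measurable_snd).pow_const a))
    · exact mul_nonneg (hDa0 x) (mul_nonneg (G_nonneg _ _) (hDa0 y))
    · exact mul_le_mul (hDa x) (mul_le_mul (G_le hτ0 _) (hDa y) (hDa0 y) (by positivity))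
        (mul_nonneg (G_nonneg _ _) (hDa0 y)) ((hDa0 x).trans (hDa x))
    · simp only [hk]
      rw [G_symm]; ring
  have hBd : ∀ i, Bd (f i) (∑ j, C j) := fun i => ⟨(hC' i).meas, fun x =>
    ((hC' i).le x).trans (Finset.single_le_sum (fun j _ => hC0 j) (Finset.mem_univ i))⟩
  have r0 : ∀ g : (Fin d → ℝ) → ℝ, (∀ x ∉ Ω, g x = 0) → ∫ x in Ω, g x = ∫ x, g x := fun g hg =>
    setIntegral_eq_integral_of_forall_compl_eq_zero hg
  have hG' : ∀ v : Fin n → ℝ, ∫ x in Ω, (∑ i, v i * f i x) ^ 2 ≤ ∑ i, v i ^ 2 := fun v => by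
    rw [r0 _ fun x hx => by simp [hf0 _ x hx]]
    exact hG v
  have hmom := moment (μ := volume.restrict Ω) (j + i) k _ hKer f _ hBd hG'
  rw [show j + i + 1 = j + 1 + i by ring] at hmom
  have i1 : ∀ i, Integrable fun x => f i x ^ 2 := fun i =>
    ((hf i).continuous.pow 2).integrable_of_hasCompactSupport (by
      have := (hfc i).mul_right (f' := f i)
      simpa only [sq] using this)
  have eΛ : ∑ i, ∫ x in Ω, f i x ^ 2 = ∫ x, den f x := by
    unfold den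
    rw [integral_finsetSum _ fun i _ => i1 i]
    exact Finset.sum_congr rfl fun i _ => r0 _ fun x hx => by simp [hf0 _ x hx]
  have hΛ0 : 0 ≤ ∫ x, den f x := integral_nonneg hd0
  have hZ0 : 0 ≤ Z := mul_nonneg hV.le (Real.rpow_nonneg (by positivity) _)
  have hup : (∑ i', ∫ x in Ω, f i' x * AA (volume.restrict Ω) k (f i') x) ^ (2 ^ (j + 1 + i)) ≤
      (∫ x, den f x) ^ (2 ^ (j + 1 + i) - 1) * Z := by
    rw [eΛ] at hmom
    have h1 := hmom.trans (mul_le_mul_right htr _)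
    rw [← ENNReal.ofReal_mul (pow_nonneg hΛ0 _)] at h1
    exact (ENNReal.ofReal_le_ofReal_iff (mul_nonneg (pow_nonneg hΛ0 _) hZ0)).1 h1
  refine (pow_le_pow_left₀ hS0 (hS.trans (le_of_eq ?_)) _).trans hup
  refine Finset.sum_congr rfl fun i' _ => ?_
  rw [r0 _ fun x hx => by simp [hf0 _ x hx]]
  refine integral_congr_ae (Eventually.of_forall fun x => ?_)
  simp only [AA, hk]
  rw [r0 _ fun y hy => by simp [hf0 _ y hy], ← integral_const_mul]

/-- Golden-Thompson with a gain. -/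
theorem gti_of (hM : S_MIX) (hH : S_HOL) (hC : S_SCH) (hJ : S_JJ) (hLo : S_LOW2) : S_GTI := by
  intro d n f hf hfc hG Ω hΩ hf0 hΛ δ hδ j hj s hs
  obtain ⟨j, rfl⟩ : ∃ j', j = j' + 1 := ⟨j - 1, by omega⟩
  set x₀ : ℝ := ((2:ℝ) ^ (j + 1))⁻¹ with hx₀
  have hx0 : 0 < x₀ := by positivity
  have hx1 : x₀ ≤ 1 / 2 := by
    rw [hx₀, one_div]
    refine inv_anti₀ (by norm_num) ?_
    calc (2:ℝ) = 2 ^ 1 := by norm_num
      _ ≤ 2 ^ (j + 1) := pow_le_pow_right₀ (by norm_num) (by omega)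
  have hV : 0 < (volume Ω).toReal := by
    refine ENNReal.toReal_pos (fun h0 => hΛ.ne' ?_) hΩ
    have h1 : ∫ x, den f x = ∫ x in Ω, den f x :=
      (setIntegral_eq_integral_of_forall_compl_eq_zero fun x hx => by
        simp [den, hf0 _ x hx]).symm
    rw [h1, Measure.restrict_eq_zero.2 h0, integral_zero_measure]
  set Λ := ∫ x, den f x with hΛd
  set Q : ℝ := (4 * π * s) ^ 2 * (1 - x₀ ^ 2) with hQ
  have h1x : 0 < 1 - x₀ ^ 2 := by nlinarith
  have hQ0 : 0 < Q := by positivity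
  set Z : ℝ := (volume Ω).toReal * ((√Q)⁻¹ ^ d) ^ (1 / 2 : ℝ) with hZ
  have hZ0 : 0 < Z := by positivity
  have hlogZ : Real.log Z = Real.log (volume Ω).toReal - (d:ℝ) / 2 * Real.log (4 * π * s) -
      (d:ℝ) / 4 * Real.log (1 - x₀ ^ 2) := by
    rw [hZ, Real.log_mul hV.ne' (by positivity), Real.log_rpow (by positivity), Real.log_pow,
      Real.log_inv, Real.log_sqrt hQ0.le, hQ, Real.log_mul (by positivity) h1x.ne', Real.log_pow]
    push_cast
    ring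
  have key : ∀ ε : ℝ, 0 < ε → s * (2 * (x₀ / 4) * (1 / 4 * fis δ f) - kin f - ε) ≤
      Λ * (Real.log Z - Real.log Λ) := by
    intro ε hε
    refine pow_limit s _ Λ Z hΛ hZ0 ?_
    obtain ⟨τ₀, hτ₀, hlow⟩ := hLo d n f hf hfc δ (x₀ / 4) ε hδ (by positivity) (by linarith) hε
    have h1 : Tendsto (fun l : ℕ => s / 2 ^ (l + 1)) atTop (𝓝 0) := by
      refine tendsto_const_nhds.div_atTop ?_
      exact (tendsto_pow_atTop_atTop_of_one_lt (by norm_num : (1:ℝ) < 2)).comp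
        (tendsto_add_atTop_nat 1)
    filter_upwards [h1.eventually (gt_mem_nhds hτ₀), eventually_ge_atTop j] with l hl hlj hpos
    obtain ⟨i, rfl⟩ : ∃ i, l = j + i := ⟨l - j, by omega⟩
    rw [show j + i + 1 = j + 1 + i by ring] at hl hpos ⊢
    refine gti_step hM hH hC hJ n f hf hfc hG Ω hΩ hf0 δ hδ j i s hs hV _ hpos ?_
    refine le_trans (le_of_eq ?_) (hlow (s / 2 ^ (j + 1 + i)) (by positivity) hl)
    rw [← hΛd]
    ring
  have h2 : s * (2 * (x₀ / 4) * (1 / 4 * fis δ f) - kin f) ≤ Λ * (Real.log Z - Real.log Λ) := by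
    refine le_of_forall_pos_le_add fun e he => ?_
    have := key (e / s) (by positivity)
    have e1 : s * (2 * (x₀ / 4) * (1 / 4 * fis δ f) - kin f - e / s) =
        s * (2 * (x₀ / 4) * (1 / 4 * fis δ f) - kin f) - e := by field_simp
    rw [e1] at this
    linarith
  rw [hlogZ] at h2
  nlinarith

end Pool.Agent.L7h99.SC
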