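import Pool.Agent.L7h99.SC.Stm
import Pool.Agent.L7h76.LS.Semi

set_option autoImplicit false

/-!
# The trace bound for `D^a G D^a`, `D = F / G F`
-/

open MeasureTheory Set Filter Topology Real
open scoped ENNReal

namespace Pool.Agent.L7h99.SC

open Pool.Agent.L7h99.LS

theorem It_meas {X : Type} [MeasurableSpace X] (μ : Measure X) [SFinite μ]
    {κ : X → X → ℝ≥0∞} (hκ : Measurable (Function.uncurry κ)) (i : ℕ) :
    Measurable (Function.uncurry (It μ i κ)) := by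
  induction i with
  | zero => exact hκ
  | succ i ih =>
    show Measurable fun p : X × X => ∫⁻ z, It μ i κ p.1 z * It μ i κ z p.2 ∂μ
    refine Measurable.lintegral_prod_right' (f := fun q : (X × X) × X =>
      It μ i κ q.1.1 q.2 * It μ i κ q.2 q.1.2) ?_
    exact (ih.comp (by fun_prop : Measurable fun q : (X × X) × X => (q.1.1, q.2))).mul
      (ih.comp (by fun_prop : Measurable fun q : (X × X) × X => (q.2, q.1.2)))

theorem T_It {X : Type} [MeasurableSpace X] (μ : Measure X) [SFinite μ]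
    {κ : X → X → ℝ≥0∞} (hκ : Measurable (Function.uncurry κ)) (i : ℕ) : ∀ j : ℕ,
    T (j + i) X _ μ (fun _ => 1) κ = T j X _ μ (fun _ => 1) (It μ i κ) := by
  induction i with
  | zero => intro j; rfl
  | succ i ih =>
    intro j
    rw [show j + (i + 1) = (j + 1) + i by ring, ih (j + 1),
      T_sq j X _ μ (It μ i κ) (It_meas μ hκ i)]
    rfl

variable {d : ℕ}

theorem trace_bound (hM : S_MIX) (hH : S_HOL) (hC : S_SCH) (hJ : S_JJ) (Ω : Set (Fin d → ℝ))
    (hΩ : volume Ω ≠ ∞) (F GF : (Fin d → ℝ) → ℝ) (hF : Measurable F) (hGF : Measurable GF)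
    (hF0 : ∀ x, 0 < F x) (hGF0 : ∀ x, 0 < GF x) (j i : ℕ) (τ : ℝ) (hτ : 0 < τ)
    (hFG : ∀ x, ∫⁻ y, E τ x y * ENNReal.ofReal (F y) ≤ ENNReal.ofReal (GF x)) :
    T (j + 1 + i) _ _ (volume.restrict Ω) (fun _ => 1) (fun x y => ENNReal.ofReal
      ((F x / GF x) ^ (((2:ℝ) ^ (j + 1))⁻¹ / 4) * (G τ (x - y) *
        (F y / GF y) ^ (((2:ℝ) ^ (j + 1))⁻¹ / 4)))) ≤
    ENNReal.ofReal ((volume Ω).toReal *
      ((√(16 * π ^ 2 * ((2 ^ (j + 1) - 1) * (2 ^ i * τ)) *
        (2 * (2 ^ i * τ) + ((2 ^ (j + 1) - 1) * (2 ^ i * τ)))))⁻¹ ^ d) ^ (1 / 2 : ℝ)) := by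
  have : IsFiniteMeasure (volume.restrict Ω) := ⟨by
    rw [Measure.restrict_apply_univ]; exact lt_of_le_of_ne le_top hΩ⟩
  set x₀ : ℝ := ((2:ℝ) ^ (j + 1))⁻¹ with hx₀
  have hx0 : 0 < x₀ := by positivity
  have hx1 : x₀ ≤ 1 / 2 := by
    rw [hx₀, one_div]
    refine inv_anti₀ (by norm_num) ?_
    calc (2:ℝ) = 2 ^ 1 := by norm_num
      _ ≤ 2 ^ (j + 1) := pow_le_pow_right₀ (by norm_num) (by omega)
  set θ : ℝ := x₀ / 2 with hθ
  set s₁ : ℝ := 2 ^ i * τ with hs₁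
  have hs₁0 : 0 < s₁ := by positivity
  have h2j : (2:ℝ) ≤ 2 ^ (j + 1) := by
    calc (2:ℝ) = 2 ^ 1 := by norm_num
      _ ≤ 2 ^ (j + 1) := pow_le_pow_right₀ (by norm_num) (by omega)
  set s₂ : ℝ := (2 ^ (j + 1) - 1) * s₁ with hs₂
  have hs₂0 : 0 < s₂ := mul_pos (by linarith) hs₁0
  set D : (Fin d → ℝ) → ℝ := fun x => F x / GF x with hD
  have hDm : Measurable D := hF.div hGF
  have hD0 : ∀ x, 0 < D x := fun x => div_pos (hF0 x) (hGF0 x)
  set c : (Fin d → ℝ) → ℝ≥0∞ := fun x => ENNReal.ofReal (D x ^ (1 / 2 : ℝ)) with hc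
  have hcm : Measurable c := (hDm.pow_const _).ennreal_ofReal
  set k₁ : (Fin d → ℝ) → (Fin d → ℝ) → ℝ≥0∞ := fun x y => c x * (E τ x y * c y) with hk₁
  set κ : (Fin d → ℝ) → (Fin d → ℝ) → ℝ≥0∞ := fun x y => ENNReal.ofReal
      (D x ^ (x₀ / 4) * (G τ (x - y) * D y ^ (x₀ / 4))) with hκ
  have hEm := E_meas (d := d)
  have hk₁m : Measurable (Function.uncurry k₁) :=
    (hcm.comp measurable_fst).mul ((hEm τ).mul (hcm.comp measurable_snd))
  have hrp : ∀ (b u v : ℝ), 0 < b → ENNReal.ofReal (b ^ u) ^ v = ENNReal.ofReal (b ^ (u * v)) := by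
    intro b u v hb
    rw [ENNReal.ofReal_rpow_of_pos (Real.rpow_pos_of_pos hb _), ← Real.rpow_mul hb.le]
  have hκe : ∀ x y, κ x y = k₁ x y ^ θ * E τ x y ^ (1 - θ) := by
    intro x y
    have h1 : κ x y = ENNReal.ofReal (D x ^ (x₀ / 4)) * (E τ x y *
        ENNReal.ofReal (D y ^ (x₀ / 4))) := by
      simp only [hκ]
      rw [ENNReal.ofReal_mul (Real.rpow_nonneg (hD0 x).le _), ENNReal.ofReal_mul (G_nonneg _ _)]
      rfl
    rw [h1]
    simp only [hk₁]
    rw [ENNReal.mul_rpow_of_nonneg _ _ (by positivity : 0 ≤ θ),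
      ENNReal.mul_rpow_of_nonneg _ _ (by positivity : 0 ≤ θ)]
    simp only [hc]
    rw [hrp _ _ _ (hD0 x), hrp _ _ _ (hD0 y)]
    have e1 : (1:ℝ) / 2 * θ = x₀ / 4 := by rw [hθ]; ring
    rw [e1]
    have e2 : E τ x y = E τ x y ^ θ * E τ x y ^ (1 - θ) := by
      rw [← ENNReal.rpow_add_of_nonneg _ _ (by positivity) (by rw [hθ]; linarith)]
      simp
    calc _ = ENNReal.ofReal (D x ^ (x₀ / 4)) * ((E τ x y ^ θ * E τ x y ^ (1 - θ)) *
        ENNReal.ofReal (D y ^ (x₀ / 4))) := by rw [← e2]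
      _ = _ := by ring
  have hκm : Measurable (Function.uncurry κ) := by
    have : Function.uncurry κ = fun p => Function.uncurry k₁ p ^ θ *
        Function.uncurry (E τ) p ^ (1 - θ) := by
      funext p
      exact hκe p.1 p.2
    rw [this]
    exact (hk₁m.pow_const _).mul ((hEm τ).pow_const _)
  have hIt := hH d Ω θ τ (by positivity) (by rw [hθ]; linarith) hτ k₁ κ hk₁m hκm
    (fun x y => (hκe x y).le) i
  set I : (Fin d → ℝ) → (Fin d → ℝ) → ℝ≥0∞ := It (volume.restrict Ω) i k₁ with hI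
  have hIm : Measurable (Function.uncurry I) := It_meas _ hk₁m i
  set A : (Fin d → ℝ) → (Fin d → ℝ) → ℝ≥0∞ := fun x y =>
    I x y ^ (1 / 2 : ℝ) * E s₁ x y ^ (1 / 2 : ℝ) with hA
  have hAm : Measurable (Function.uncurry A) := (hIm.pow_const _).mul ((hEm s₁).pow_const _)
  have hAe : ∀ x y, A x y ^ x₀ * E s₁ x y ^ (1 - x₀) = I x y ^ θ * E s₁ x y ^ (1 - θ) := by
    intro x y
    simp only [hA]
    rw [ENNReal.mul_rpow_of_nonneg _ _ hx0.le, ← ENNReal.rpow_mul, ← ENNReal.rpow_mul, mul_assoc,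
      ← ENNReal.rpow_add_of_nonneg _ _ (by positivity) (by linarith)]
    have e1 : (1:ℝ) / 2 * x₀ = θ := by rw [hθ]; ring
    have e2 : θ + (1 - x₀) = 1 - θ := by rw [hθ]; ring
    rw [e1, e2]
  rw [T_It (volume.restrict Ω) hκm i (j + 1)]
  refine (T_mono (j + 1) _ _ (volume.restrict Ω) _ _ _ (fun x y => A x y ^ x₀ *
    E s₁ x y ^ (1 - x₀)) (fun x => le_rfl) (fun x y => (hIt x y).trans (hAe x y).ge)).trans ?_
  refine (hM d Ω j s₁ hs₁0 A hAm).trans ?_
  -- Cauchy-Schwarz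
  set f : (Fin d → ℝ) × (Fin d → ℝ) → ℝ≥0∞ := fun p => I p.1 p.2 ^ (1 / 2 : ℝ) with hf
  set g : (Fin d → ℝ) × (Fin d → ℝ) → ℝ≥0∞ := fun p => E s₁ p.1 p.2 ^ (1 / 2 : ℝ) * E s₂ p.1 p.2
    with hg
  have hfm : Measurable f := hIm.pow_const _
  have hgm : Measurable g := ((hEm s₁).pow_const _).mul (hEm s₂)
  have e1 : ∫⁻ x in Ω, ∫⁻ y in Ω, A x y * E s₂ x y =
      ∫⁻ p, (f * g) p ∂((volume.restrict Ω).prod (volume.restrict Ω)) := by
    rw [lintegral_prod _ (hfm.mul hgm).aemeasurable]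
    refine lintegral_congr fun x => lintegral_congr fun y => ?_
    simp only [hA, hf, hg, Pi.mul_apply, mul_assoc]
  have hcs := ENNReal.lintegral_mul_le_Lp_mul_Lq
    ((volume.restrict Ω).prod (volume.restrict Ω)) Real.HolderConjugate.two_two
    hfm.aemeasurable hgm.aemeasurable
  rw [e1]
  refine hcs.trans ?_
  have e2 : ∫⁻ p, f p ^ (2:ℝ) ∂((volume.restrict Ω).prod (volume.restrict Ω)) ≤ volume Ω := by
    rw [lintegral_prod _ (hfm.pow_const _).aemeasurable]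
    have e3 : ∀ x y, f (x, y) ^ (2:ℝ) = I x y := by
      intro x y
      simp only [hf]
      rw [← ENNReal.rpow_mul]
      norm_num
    simp only [e3]
    have h4 := hC _ _ (volume.restrict Ω) k₁ (fun x => √(F x * GF x)) hk₁m (fun x y => by
      simp only [hk₁]; rw [E_symm]; ring) (hF.mul hGF).sqrt
      (fun x => Real.sqrt_pos.2 (mul_pos (hF0 x) (hGF0 x))) (fun x => ?_) i
    · rwa [Measure.restrict_apply_univ] at h4
    · have h5 : ∀ y, k₁ x y * ENNReal.ofReal √(F y * GF y) =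
          c x * (E τ x y * ENNReal.ofReal (F y)) := by
        intro y
        simp only [hk₁, hc]
        have e6 : ENNReal.ofReal (D y ^ (1 / 2 : ℝ)) * ENNReal.ofReal √(F y * GF y) =
            ENNReal.ofReal (F y) := by
          rw [← ENNReal.ofReal_mul (Real.rpow_nonneg (hD0 y).le _), ← Real.sqrt_eq_rpow,
            ← Real.sqrt_mul (hD0 y).le]
          congr 1
          have e7 : D y * (F y * GF y) = F y ^ 2 := by
            simp only [hD]
            field_simp [(hGF0 y).ne']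
          rw [e7, Real.sqrt_sq (hF0 y).le]
        calc _ = ENNReal.ofReal (D x ^ (1 / 2 : ℝ)) * (E τ x y * (ENNReal.ofReal (D y ^ (1 / 2 : ℝ)) *
            ENNReal.ofReal √(F y * GF y))) := by ring
          _ = _ := by rw [e6]
      simp only [h5]
      have m1 : Measurable fun y => E τ x y * ENNReal.ofReal (F y) :=
        ((hEm τ).comp (measurable_const.prodMk measurable_id)).mul hF.ennreal_ofReal
      rw [lintegral_const_mul _ m1]
      refine (mul_le_mul_right ((setLIntegral_le_lintegral _ _).trans (hFG x)) _).trans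
        (le_of_eq ?_)
      simp only [hc]
      rw [← ENNReal.ofReal_mul (Real.rpow_nonneg (hD0 x).le _), ← Real.sqrt_eq_rpow]
      congr 1
      have e8 : GF x = √(GF x ^ 2) := (Real.sqrt_sq (hGF0 x).le).symm
      calc √(D x) * GF x = √(D x) * √(GF x ^ 2) := by rw [← e8]
        _ = √(D x * GF x ^ 2) := (Real.sqrt_mul (hD0 x).le _).symm
        _ = _ := by
          congr 1
          simp only [hD]
          field_simp [(hGF0 x).ne']
  set Q : ℝ := (√(16 * π ^ 2 * s₂ * (2 * s₁ + s₂)))⁻¹ ^ d with hQ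
  have hQ0 : 0 ≤ Q := by positivity
  have e3 : ∫⁻ p, g p ^ (2:ℝ) ∂((volume.restrict Ω).prod (volume.restrict Ω)) ≤
      ENNReal.ofReal Q * volume Ω := by
    rw [lintegral_prod _ (hgm.pow_const _).aemeasurable]
    have e4 : ∀ x y, g (x, y) ^ (2:ℝ) = E s₁ x y * E s₂ x y ^ 2 := by
      intro x y
      simp only [hg]
      rw [ENNReal.mul_rpow_of_nonneg _ _ (by norm_num), ← ENNReal.rpow_mul]
      norm_num
    simp only [e4]
    calc ∫⁻ x in Ω, ∫⁻ y in Ω, E s₁ x y * E s₂ x y ^ 2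
        ≤ ∫⁻ x in Ω, ENNReal.ofReal Q := lintegral_mono fun x =>
          (setLIntegral_le_lintegral _ _).trans (hJ d s₁ s₂ hs₁0 hs₂0 x).le
      _ = _ := by rw [lintegral_const, Measure.restrict_apply_univ]
  have hV : volume Ω = ENNReal.ofReal (volume Ω).toReal := (ENNReal.ofReal_toReal hΩ).symm
  set V : ℝ := (volume Ω).toReal with hVd
  have hV0 : 0 ≤ V := ENNReal.toReal_nonneg
  rw [hV] at e2 e3
  rw [← ENNReal.ofReal_mul hQ0] at e3
  refine (mul_le_mul' (ENNReal.rpow_le_rpow e2 (by norm_num))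
    (ENNReal.rpow_le_rpow e3 (by norm_num))).trans (le_of_eq ?_)
  rw [ENNReal.ofReal_rpow_of_nonneg hV0 (by norm_num),
    ENNReal.ofReal_rpow_of_nonneg (mul_nonneg hQ0 hV0) (by norm_num),
    ← ENNReal.ofReal_mul (Real.rpow_nonneg hV0 _)]
  congr 1
  rw [Real.mul_rpow hQ0 hV0]
  have e9 : V ^ (1 / 2 : ℝ) * V ^ (1 / 2 : ℝ) = V := by
    rw [← Real.sqrt_eq_rpow, Real.mul_self_sqrt hV0]
  calc _ = (V ^ (1 / 2 : ℝ) * V ^ (1 / 2 : ℝ)) * Q ^ (1 / 2 : ℝ) := by ring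
    _ = _ := by rw [e9]

end Pool.Agent.L7h99.SC
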