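import Pool.Agent.L7h99.SC.Main

set_option autoImplicit false

/-!
# The kinetic inequality in high dimension, with a rate
-/

open MeasureTheory Set Filter Topology Real
open scoped ENNReal

namespace Pool.Agent.L7h99.SC

open Pool.Agent.L7h99.LS

/-- The inequality in a window, quantitative. -/
theorem win_quant (hGTI : S_GTI) (hSMK : S_SMK) : ∃ c : ℝ, 0 < c ∧ ∀ (d : ℕ) (ε K : ℝ), 4 ≤ d →
    0 < ε → ε ≤ 1 → 1 ≤ K → K ≤ c * ε ^ 8 * √d → WinIneq d ε (K * √d) := by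
  obtain ⟨C₀, hC₀, hS⟩ := hSMK
  have hC1 := C1_pos
  have hsC : 0 < √C₀ := Real.sqrt_pos.2 hC₀
  set a : ℝ := 1 / (3 * (4 * C1 + 1)) with ha
  have ha0 : 0 < a := by positivity
  set b : ℝ := a / (144 * C1 * √C₀) with hb
  have hb0 : 0 < b := by positivity
  set B : ℝ := (2 * b ^ 2 / (3 * C1)) ^ 2 / 512 with hB
  have hB0 : 0 < B := by positivity
  set R : ℝ := 4 + 2 * (8 + |Real.log (6 * C1)|) with hR
  have hR0 : 0 < R := by positivity
  set c : ℝ := min (1 / 4) (B / R) with hc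
  have hc0 : 0 < c := lt_min (by norm_num) (by positivity)
  have hc4 : c ≤ 1 / 4 := min_le_left _ _
  have hcR : c * R ≤ B := by
    have := min_le_right (1 / 4) (B / R)
    rw [← hc, le_div_iff₀ hR0] at this
    exact this
  refine ⟨c, hc0, fun d ε K hd4 hε hε1 hK hKc => ?_⟩
  have hd0 : (0:ℝ) < d := by positivity
  have hd4' : (4:ℝ) ≤ d := by exact_mod_cast hd4
  have hsd : 0 < √(d:ℝ) := Real.sqrt_pos.2 hd0
  have hsd2 : √(d:ℝ) * √(d:ℝ) = d := Real.mul_self_sqrt hd0.le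
  have hK0 : 0 < K := by linarith
  set η : ℝ := a * ε with hη
  have hη0 : 0 < η := by positivity
  have ha1 : a ≤ 1 / 3 := by
    rw [ha]
    apply one_div_le_one_div_of_le (by norm_num)
    linarith
  have hη2 : η ≤ 1 / 2 := by
    have : a * ε ≤ 1 / 3 * 1 := mul_le_mul ha1 hε1 hε.le (by norm_num)
    rw [hη]; linarith
  have hη3 : η + 4 * η * C1 ≤ ε / 3 := by
    have : a * (3 * (4 * C1 + 1)) = 1 := by rw [ha]; field_simp
    rw [hη]
    nlinarith
  set t₁ : ℝ := b * ε ^ 2 with ht₁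
  have ht₁0 : 0 < t₁ := by positivity
  have ht3 : 48 * C1 * √C₀ * t₁ / η = ε / 3 := by
    rw [ht₁, hη, hb]; field_simp; ring
  set ι₀ : ℝ := 2 * t₁ ^ 2 / (3 * C1) with hι₀
  have hι0 : 0 < ι₀ := by positivity
  have hι8 : ι₀ ^ 2 / 512 = B * ε ^ 8 := by
    rw [hι₀, ht₁, hB]; ring
  set ε' : ℝ := ε / (6 * C1) with hε'
  have hε'0 : 0 < ε' := by positivity
  set W : ℝ := K * √d with hW
  have hW0 : 0 ≤ W := by positivity
  have hWd : 4 * W / d = 4 * K / √d := by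
    rw [hW, div_eq_div_iff hd0.ne' hsd.ne']
    calc 4 * (K * √d) * √d = 4 * K * (√d * √d) := by ring
      _ = 4 * K * d := by rw [hsd2]
  have hKd : K / √d ≤ c * ε ^ 8 := by rw [div_le_iff₀ hsd]; exact hKc
  have hε8 : ε ^ 8 ≤ 1 := pow_le_one₀ hε.le hε1
  have hε80 : 0 < ε ^ 8 := by positivity
  have hW4 : 4 * W / d ≤ 4 * (c * ε ^ 8) := by
    rw [hWd]
    calc 4 * K / √d = 4 * (K / √d) := by ring
      _ ≤ _ := by linarith
  have hn1 : 4 * W / d ≤ 1 := by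
    have : c * ε ^ 8 ≤ 1 / 4 * 1 := mul_le_mul hc4 hε8 hε80.le (by norm_num)
    linarith
  have h1d' : 1 / √(d:ℝ) ≤ c * ε ^ 8 := by
    refine le_trans ?_ hKd
    exact div_le_div_of_nonneg_right hK hsd.le
  have hn2 : 2 / (d:ℝ) * (3 + 2 * Real.log d + Real.log (1 / ε')) + 4 * W / d ≤
      ι₀ ^ 2 / 512 := by
    rw [hι8]
    have l1 : Real.log d ≤ 2 * √d := by
      have h := Real.log_le_sub_one_of_pos hsd
      rw [Real.log_sqrt hd0.le] at h
      linarith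
    have l2 : Real.log (1 / ε') ≤ |Real.log (6 * C1)| * √d + √d := by
      have e1 : 1 / ε' = (6 * C1) / ε := by rw [hε']; field_simp
      rw [e1, Real.log_div (by positivity) hε.ne']
      have h1 : -Real.log ε ≤ 1 / ε := by
        have := Real.log_le_sub_one_of_pos (by positivity : (0:ℝ) < 1 / ε)
        rw [one_div, Real.log_inv] at this
        rw [one_div]
        linarith
      have h2 : 1 / ε ≤ √d := by
        rw [div_le_iff₀ hε]
        have h3 : 1 ≤ c * ε ^ 8 * √d := by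
          rw [div_le_iff₀ hsd] at h1d'
          exact h1d'
        have h4 : ε ^ 8 ≤ ε := by
          calc ε ^ 8 = ε * ε ^ 7 := by ring
            _ ≤ ε * 1 := mul_le_mul_of_nonneg_left (pow_le_one₀ hε.le hε1) hε.le
            _ = ε := mul_one _
        have h5 : c * ε ^ 8 * √d ≤ 1 * ε * √d := by
          refine mul_le_mul_of_nonneg_right ?_ hsd.le
          exact mul_le_mul (by linarith) h4 hε80.le (by norm_num)
        linarith
      have h6 : Real.log (6 * C1) ≤ |Real.log (6 * C1)| * √d := by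
        have h7 : (1:ℝ) ≤ √d := by
          rw [Real.one_le_sqrt]; linarith
        calc Real.log (6 * C1) ≤ |Real.log (6 * C1)| * 1 := by
              rw [mul_one]; exact le_abs_self _
          _ ≤ _ := mul_le_mul_of_nonneg_left h7 (abs_nonneg _)
      linarith
    have l3 : 3 + 2 * Real.log d + Real.log (1 / ε') ≤ (8 + |Real.log (6 * C1)|) * √d := by
      have h7 : (1:ℝ) ≤ √d := by
        rw [Real.one_le_sqrt]; linarith
      nlinarith
    have l4 : 2 / (d:ℝ) * (3 + 2 * Real.log d + Real.log (1 / ε')) ≤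
        2 * (8 + |Real.log (6 * C1)|) * (1 / √d) := by
      have h8 : 2 / (d:ℝ) * ((8 + |Real.log (6 * C1)|) * √d) =
          2 * (8 + |Real.log (6 * C1)|) * (1 / √d) := by
        rw [show (2:ℝ) / d = 2 / (√d * √d) by rw [hsd2]]
        field_simp
      rw [← h8]
      exact mul_le_mul_of_nonneg_left l3 (by positivity)
    have l5 : 2 * (8 + |Real.log (6 * C1)|) * (1 / √(d:ℝ)) ≤
        2 * (8 + |Real.log (6 * C1)|) * (c * ε ^ 8) :=
      mul_le_mul_of_nonneg_left h1d' (by positivity)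
    have l6 : c * R * ε ^ 8 ≤ B * ε ^ 8 := mul_le_mul_of_nonneg_right hcR hε80.le
    have l7 : c * R * ε ^ 8 = 4 * (c * ε ^ 8) +
        2 * (8 + |Real.log (6 * C1)|) * (c * ε ^ 8) := by rw [hR]; ring
    linarith
  intro A hA Ω hΩm hΩ n f hf hfc hf0 hG hB'
  set E : ℝ := A ^ (2 / (d:ℝ)) with hE
  have hE0 : 0 < E := Real.rpow_pos_of_pos hA _
  have hKp := Kcl_pos hd4
  have hKl := Kcl_lin hd4
  have hΛ0 : 0 ≤ ∫ x, den f x := integral_nonneg fun x => den_nonneg f x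
  have hV0 : 0 ≤ (volume Ω).toReal := ENNReal.toReal_nonneg
  have hB0' : 0 < A * Real.exp W := by positivity
  rcases hΛ0.eq_or_lt with h0 | hΛ
  · -- zero mass
    have h1 := pow_int_le (p := 2 / (d:ℝ)) hf hfc hB0' hB' (by positivity)
    rw [← h0, mul_zero] at h1
    have h2 : LTd.Kcl d * ∫ x, den f x ^ (1 + 2 / (d:ℝ)) ≤ 0 :=
      mul_nonpos_of_nonneg_of_nonpos hKp.le h1
    have h3 := kin_nonneg f
    have h4 : 0 ≤ ε * E * ((∫ x, den f x) + A * (volume Ω).toReal) := by positivity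
    linarith
  have hV : 0 < (volume Ω).toReal := by
    refine ENNReal.toReal_pos (fun h0 => hΛ.ne' ?_) hΩ
    have h1 : ∫ x, den f x = ∫ x in Ω, den f x :=
      (setIntegral_eq_integral_of_forall_compl_eq_zero fun x hx => by
        simp [den, hf0 _ x hx]).symm
    rw [h1, Measure.restrict_eq_zero.2 h0, integral_zero_measure]
  set Λ := ∫ x, den f x with hΛd
  set V := (volume Ω).toReal with hVd
  set δ : ℝ := Λ / V with hδ
  have hδ0 : 0 < δ := by positivity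
  have hδV : δ * V = Λ := by rw [hδ]; field_simp
  have h2W : Real.exp (2 * W / d) ≤ 2 := by
    have h0 : 0 ≤ 2 * W / d := by positivity
    have e : 4 * W / d = 2 * (2 * W / d) := by ring
    have h1 := Real.abs_exp_sub_one_sub_id_le (x := 2 * W / d) (by
      rw [abs_of_nonneg h0]; linarith)
    have h2 := (abs_le.1 h1).2
    nlinarith
  have h1d : 1 + 2 / (d:ℝ) ≤ 3 := by
    have : 2 / (d:ℝ) ≤ 2 / 4 := div_le_div_of_nonneg_left (by norm_num) (by norm_num) hd4'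
    linarith
  by_cases hf1 : fis δ f ≤ 2 * t₁ ^ 2 * (d * E) * Λ
  · have h := win_smooth hC₀ hS hd4 hA h2W hη0 hη2 ht₁0 hΩm hΩ hf hfc hf0 hG hB' hδ0 hδV.le hf1
    have h3 : E * Λ * (η + 4 * η * C1 + 48 * C1 * √C₀ * t₁ / η) ≤ ε * E * (Λ + A * V) := by
      have a1 : η + 4 * η * C1 + 48 * C1 * √C₀ * t₁ / η ≤ ε := by rw [ht3]; linarith
      have a2 : E * Λ * (η + 4 * η * C1 + 48 * C1 * √C₀ * t₁ / η) ≤ E * Λ * ε :=
        mul_le_mul_of_nonneg_left a1 (by positivity)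
      have a3 : 0 ≤ ε * E * (A * V) := by positivity
      linarith
    linarith
  · have hf2 : ι₀ * ((1 + 2 / (d:ℝ)) * LTd.Kcl d * E * Λ) ≤ fis δ f := by
      refine le_trans ?_ (not_le.1 hf1).le
      have a1 : (1 + 2 / (d:ℝ)) * LTd.Kcl d ≤ 3 * (C1 * d) :=
        mul_le_mul h1d hKl hKp.le (by norm_num)
      calc ι₀ * ((1 + 2 / (d:ℝ)) * LTd.Kcl d * E * Λ)
          ≤ ι₀ * (3 * (C1 * d) * E * Λ) := by gcongr
        _ = _ := by rw [hι₀]; field_simp
    have h := win_rough hGTI hd4 hA hW0 hn1 hε'0 hι0 hn2 hΩ hf hfc hf0 hG hB' hδ0 hV hΛ hf2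
    have h3 : 2 * ((1 + 2 / (d:ℝ)) * LTd.Kcl d * E) * ε' / d * (A * V) ≤ ε * E * (Λ + A * V) := by
      have a1 : (1 + 2 / (d:ℝ)) * LTd.Kcl d ≤ 3 * (C1 * d) :=
        mul_le_mul h1d hKl hKp.le (by norm_num)
      have a2 : 2 * ((1 + 2 / (d:ℝ)) * LTd.Kcl d * E) * ε' / d * (A * V) ≤
          2 * (3 * (C1 * d) * E) * ε' / d * (A * V) := by gcongr
      have a3 : 2 * (3 * (C1 * d) * E) * ε' / d * (A * V) = ε * E * (A * V) := by
        rw [hε']; field_simp; ring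
      have a4 : 0 ≤ ε * E * Λ := by positivity
      linarith
    linarith

/-- The kinetic inequality in high dimension, with a rate. -/
theorem core_quant (hGTI : S_GTI) (hSMK : S_SMK) (hASM : S_ASM) : ∃ C : ℝ, 0 < C ∧
    ∀ (d : ℕ) (ε : ℝ), 4 ≤ d → 0 < ε → ε ≤ 1 → C ≤ ε ^ 19 * d → ∀ N₀ : ℝ,
      Core d ((1 - ε) ^ (1 / (d:ℝ)) * LTd.Kcl d) N₀ := by
  obtain ⟨c, hc, hW⟩ := win_quant hGTI hSMK
  obtain ⟨C', hC', hA'⟩ := hASM
  set C := max C' 1 with hCd
  have hC1 : 1 ≤ C := le_max_right _ _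
  have hC : 0 < C := by linarith
  refine ⟨400 * C * 16 ^ 16 / c ^ 2, by positivity, fun d ε hd4 hε hε1 hCd' N₀ => ?_⟩
  have hd4' : (4:ℝ) ≤ d := by exact_mod_cast hd4
  have hd0 : (0:ℝ) < d := by linarith
  set L : ℕ := ⌈8 / ε⌉₊ with hLd
  have hL : 8 / ε ≤ L := Nat.le_ceil _
  have hL' : (L:ℝ) ≤ 8 / ε + 1 := (Nat.ceil_lt_add_one (by positivity)).le
  have hL0 : (0:ℝ) < L := lt_of_lt_of_le (by positivity) hL
  have hL1 : 1 ≤ L := by exact_mod_cast hL0
  have h8 : 8 ≤ 8 / ε := by rw [le_div_iff₀ hε]; linarith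
  have h1ε : 1 ≤ 1 / ε := by rw [le_div_iff₀ hε]; linarith
  set K : ℝ := ((L:ℝ) + 1) * √(4 * C / ε) with hK
  have hCε : 1 ≤ 4 * C / ε := by rw [le_div_iff₀ hε]; linarith
  have hK1 : 1 ≤ K := by
    have h1 : 1 ≤ √(4 * C / ε) := by rw [Real.one_le_sqrt]; exact hCε
    rw [hK]
    nlinarith
  have hKle : K ≤ c * (ε / 16) ^ 8 * √d := by
    have h0 : 0 ≤ c * (ε / 16) ^ 8 * √d := by positivity
    refine (sq_le_sq₀ (by positivity) h0).1 ?_
    rw [hK, mul_pow, Real.sq_sqrt (by positivity), mul_pow, mul_pow, Real.sq_sqrt hd0.le]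
    have h1 : (L:ℝ) + 1 ≤ 10 / ε := by
      have : 10 / ε = 8 / ε + 2 * (1 / ε) := by ring
      linarith
    have h2 : ((L:ℝ) + 1) ^ 2 ≤ (10 / ε) ^ 2 := pow_le_pow_left₀ (by positivity) h1 2
    have h3 : 400 * C * 16 ^ 16 ≤ ε ^ 19 * d * c ^ 2 := by
      rw [div_le_iff₀ (by positivity)] at hCd'
      exact hCd'
    calc ((L:ℝ) + 1) ^ 2 * (4 * C / ε) ≤ (10 / ε) ^ 2 * (4 * C / ε) :=
          mul_le_mul_of_nonneg_right h2 (by positivity)
      _ = (400 * C * 16 ^ 16) / (16 ^ 16 * ε ^ 3) := by field_simp; ring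
      _ ≤ (ε ^ 19 * d * c ^ 2) / (16 ^ 16 * ε ^ 3) :=
          div_le_div_of_nonneg_right h3 (by positivity)
      _ = c ^ 2 * ((ε / 16) ^ 8) ^ 2 * d := by field_simp
  intro n F hF hFc hG _
  set ω : ℝ := √(4 * C / ε) * √d with hω
  have hωK : K * √d = ω * (L + 1) := by rw [hK, hω]; ring
  have hω2 : ω ^ 2 = 4 * C / ε * d := by
    rw [hω, mul_pow, Real.sq_sqrt (by positivity), Real.sq_sqrt hd0.le]
  have hω0 : 0 < ω := mul_pos (Real.sqrt_pos.2 (by positivity)) (Real.sqrt_pos.2 hd0)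
  have hω1 : 1 ≤ ω := by
    have h1 : 1 ≤ ω ^ 2 := by
      rw [hω2]
      nlinarith
    nlinarith
  have hwin := hW d (ε / 16) K hd4 (by positivity) (by linarith) hK1 hKle
  rw [hωK] at hwin
  have key' := hA' d L ω (ε / 16) (by omega) hL1 hω1 (by positivity) hwin n F hF hFc hG
  set I := ∫ x, den F x ^ (1 + 2 / (d:ℝ)) with hI
  have hI0 : 0 ≤ I := integral_nonneg fun x => Real.rpow_nonneg (den_nonneg F x) _
  have hkin := kin_nonneg F
  have key : (LTd.Kcl d * (1 - 2 / (d * L)) - 4 * (ε / 16)) * I ≤ (1 + C / ω ^ 2) * kin F := by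
    refine key'.trans (mul_le_mul_of_nonneg_right ?_ hkin)
    have : C' / ω ^ 2 ≤ C / ω ^ 2 := div_le_div_of_nonneg_right (le_max_left _ _) (by positivity)
    linarith
  have hKp := Kcl_pos hd4
  have hKg := Kcl_ge hd4
  show (1 - ε) ^ (1 / (d:ℝ)) * LTd.Kcl d * I ≤ kin F
  set Kc := LTd.Kcl d with hKc
  have hb : (1 - ε) ^ (1 / (d:ℝ)) ≤ 1 - ε / d := by
    have h1 := rpow_one_add_le_one_add_mul_self (s := -ε) (by linarith)
      (p := 1 / (d:ℝ)) (by positivity) (by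
        rw [div_le_one hd0]; linarith)
    have e1 : 1 + -ε = 1 - ε := by ring
    have e2 : 1 + 1 / (d:ℝ) * -ε = 1 - ε / d := by ring
    rwa [e1, e2] at h1
  have a1 : 2 / ((d:ℝ) * L) ≤ ε / (4 * d) := by
    rw [div_le_div_iff₀ (by positivity) (by positivity)]
    rw [div_le_iff₀ hε] at hL
    nlinarith
  have a2 : 4 * (ε / 16) ≤ ε / (4 * d) * Kc := by
    have : ε / (4 * d) * d ≤ ε / (4 * d) * Kc := mul_le_mul_of_nonneg_left hKg (by positivity)
    have e : ε / (4 * (d:ℝ)) * d = ε / 4 := by field_simp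
    linarith
  have a3 : C / ω ^ 2 = ε / (4 * d) := by
    rw [hω2]; field_simp
  rw [a3] at key
  set y : ℝ := ε / (4 * d) with hy
  have hy0 : 0 < y := by positivity
  have hy1 : y ≤ 1 / 16 := by
    rw [hy, div_le_iff₀ (by positivity)]
    linarith
  have e4 : ε / (d:ℝ) = 4 * y := by rw [hy]; field_simp
  rw [e4] at hb
  have b1 : Kc * (1 - 2 * y) ≤ Kc * (1 - 2 / (d * L)) - 4 * (ε / 16) := by
    have : Kc * (2 / (d * L)) ≤ Kc * y := mul_le_mul_of_nonneg_left a1 hKp.le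
    linarith
  have b2 : Kc * (1 - 2 * y) * I ≤ (1 + y) * kin F :=
    (mul_le_mul_of_nonneg_right b1 hI0).trans key
  have b3 : (1 - 4 * y) * (1 + y) ≤ 1 - 2 * y := by nlinarith
  have b4 : (1 + y) * ((1 - ε) ^ (1 / (d:ℝ)) * Kc * I) ≤ (1 + y) * kin F := by
    refine le_trans ?_ b2
    have c1 : (1 + y) * ((1 - ε) ^ (1 / (d:ℝ))) ≤ 1 - 2 * y := by
      have := mul_le_mul_of_nonneg_left hb (by linarith : 0 ≤ 1 + y)
      linarith
    calc (1 + y) * ((1 - ε) ^ (1 / (d:ℝ)) * Kc * I) =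
        ((1 + y) * ((1 - ε) ^ (1 / (d:ℝ)))) * (Kc * I) := by ring
      _ ≤ (1 - 2 * y) * (Kc * I) := mul_le_mul_of_nonneg_right c1 (by positivity)
      _ = _ := by ring
  exact le_of_mul_le_mul_left b4 (by linarith)

/-- The kinetic inequality in high dimension, with the rate `d^(-1/19)`. -/
theorem core_rate (hGTI : S_GTI) (hSMK : S_SMK) (hASM : S_ASM) : ∃ C : ℝ, 0 < C ∧
    ∀ d : ℕ, 1 ≤ d → C * (d:ℝ) ^ (-(1 / 19) : ℝ) ≤ 1 → ∀ N₀ : ℝ,
      Core d ((1 - C * (d:ℝ) ^ (-(1 / 19) : ℝ)) ^ (1 / (d:ℝ)) * LTd.Kcl d) N₀ := by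
  obtain ⟨C', hC', h⟩ := core_quant hGTI hSMK hASM
  set C := max C' 2 with hCd
  have hC2 : 2 ≤ C := le_max_right _ _
  refine ⟨C, by linarith, fun d hd hdC N₀ => ?_⟩
  have hd0 : (0:ℝ) < d := by exact_mod_cast hd
  have e1 : ((d:ℝ) ^ (-(1 / 19) : ℝ)) ^ 19 = (d:ℝ)⁻¹ := by
    rw [← Real.rpow_natCast, ← Real.rpow_mul hd0.le, ← Real.rpow_neg_one]
    congr 1
    norm_num
  have hp : 0 < (d:ℝ) ^ (-(1 / 19) : ℝ) := Real.rpow_pos_of_pos hd0 _
  set ε : ℝ := C * (d:ℝ) ^ (-(1 / 19) : ℝ) with hε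
  have hε0 : 0 < ε := by positivity
  have e2 : ε ^ 19 * d = C ^ 19 := by
    rw [hε, mul_pow, e1]; field_simp
  have h1 : ε ^ 19 ≤ 1 := pow_le_one₀ hε0.le hdC
  have h2 : (2:ℝ) ^ 19 ≤ C ^ 19 := pow_le_pow_left₀ (by norm_num) hC2 19
  have hd4 : 4 ≤ d := by
    have : (4:ℝ) ≤ d := by nlinarith
    exact_mod_cast this
  refine h d ε hd4 hε0 hdC ?_ N₀
  rw [e2]
  calc C' ≤ C := le_max_left _ _
    _ = C ^ 1 := (pow_one _).symm
    _ ≤ C ^ 19 := pow_le_pow_right₀ (by linarith) (by norm_num)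

end Pool.Agent.L7h99.SC
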