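import Pool.Agent.L7h99.SC.GTI
import Pool.Agent.L7h99.SC.MainQ
import Pool.Agent.L7h65.SC.Mix
import Pool.Agent.L7h65.SC.Jj
import Pool.Agent.L7h65.SC.Bco
import Pool.Agent.L7h65.SC.Smk
import Pool.Agent.L7h32.SC.Low2
import Pool.Agent.L7h23.SC.Par
import Pool.Agent.L7h23.SC.Bth
import Pool.Agent.L7h23.SC.Grm
import Pool.Agent.L7h23.SC.Asm
import Pool.Agent.L7h96.SC.Sm0

set_option autoImplicit false

/-!
# The kinetic inequality in high dimension: the parts put together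
-/

namespace Pool.Agent.L7h99.SC

open Pool.Agent.L7h99.LS

/-- Golden-Thompson with a gain for rough densities. -/
theorem t_GTI : S_GTI :=
  gti_of Pool.Agent.L7h65.SC.t_MIX Pool.Agent.L7h65.SC.t_HOL Pool.Agent.L7h65.SC.t_SCH
    Pool.Agent.L7h65.SC.t_JJ Pool.Agent.L7h32.SC.t_LOW2

/-- The inequality with an error controlled by one partial derivative of the density. -/
theorem t_SMK : S_SMK :=
  Pool.Agent.L7h65.SC.t_SMK (Pool.Agent.L7h96.SC.t_SM0 (Pool.Agent.L7h96.SC.t_A0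
    Pool.Agent.L7h23.SC.t_PAR Pool.Agent.L7h65.SC.t_BCO (Pool.Agent.L7h96.SC.t_SLC
      Pool.Agent.L7h23.SC.t_PAR (Pool.Agent.L7h23.SC.t_GRM Pool.Agent.L7h23.SC.t_BTH))))

/-- The kinetic inequality in high dimension, with the rate `d^(-1/19)`. -/
theorem t_rate : ∃ C : ℝ, 0 < C ∧
    ∀ d : ℕ, 1 ≤ d → C * (d:ℝ) ^ (-(1 / 19) : ℝ) ≤ 1 → ∀ N₀ : ℝ,
      Core d ((1 - C * (d:ℝ) ^ (-(1 / 19) : ℝ)) ^ (1 / (d:ℝ)) * LTd.Kcl d) N₀ :=
  core_rate t_GTI t_SMK Pool.Agent.L7h23.SC.t_ASM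

end Pool.Agent.L7h99.SC
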