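import Pool.Agent.L7h99.SC.WinAll

set_option autoImplicit false

/-!
# The kinetic inequality in high dimension
-/

open MeasureTheory Set Filter Topology Real
open scoped ENNReal

namespace Pool.Agent.L7h99.SC

open Pool.Agent.L7h99.LS

theorem gamma_ge {d : ℕ} (hd : 4 ≤ d) :
    ((d:ℝ) / (2 * Real.exp 1)) ^ d ≤ Real.Gamma ((d : ℝ) / 2 + 1) ^ 2 := by
  have hd4 : (4:ℝ) ≤ d := by exact_mod_cast hd
  have h1 := Real.Gamma_mul_Gamma_add_half ((d:ℝ) / 2 + 1 / 2)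
  have e1 : (d:ℝ) / 2 + 1 / 2 + 1 / 2 = d / 2 + 1 := by ring
  have e2 : 2 * ((d:ℝ) / 2 + 1 / 2) = d + 1 := by ring
  have e3 : (1:ℝ) - (d + 1) = -d := by ring
  rw [e1, e2, e3, Real.Gamma_nat_eq_factorial, Real.rpow_neg (by norm_num),
    Real.rpow_natCast] at h1
  have h2 : Real.Gamma ((d:ℝ) / 2 + 1 / 2) ≤ Real.Gamma ((d:ℝ) / 2 + 1) :=
    Real.Gamma_strictMonoOn_Ici.monotoneOn (by simp only [mem_Ici]; linarith)
      (by simp only [mem_Ici]; linarith) (by linarith)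
  have h3 : 0 < Real.Gamma ((d:ℝ) / 2 + 1) := Real.Gamma_pos_of_pos (by positivity)
  have h4 : (d.factorial : ℝ) * ((2:ℝ) ^ d)⁻¹ * √π ≤ Real.Gamma ((d:ℝ) / 2 + 1) ^ 2 := by
    rw [← h1, sq]
    exact mul_le_mul_of_nonneg_right h2 h3.le
  refine le_trans ?_ h4
  have h5 := Real.pow_div_factorial_le_exp (d:ℝ) (by positivity) d
  have h6 : 0 < (d.factorial : ℝ) := by exact_mod_cast d.factorial_pos
  rw [div_le_iff₀ h6] at h5
  have h7 : Real.exp (d:ℝ) = Real.exp 1 ^ d := by rw [← Real.exp_nat_mul, mul_one]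
  rw [h7] at h5
  have h8 : 1 ≤ √π := by
    rw [Real.one_le_sqrt]
    linarith [Real.pi_gt_three]
  have h9 : ((d:ℝ) / (2 * Real.exp 1)) ^ d = (d:ℝ) ^ d / Real.exp 1 ^ d * ((2:ℝ) ^ d)⁻¹ := by
    rw [div_pow, mul_pow]
    field_simp
  rw [h9]
  have h10 : (d:ℝ) ^ d / Real.exp 1 ^ d ≤ d.factorial := by
    rw [div_le_iff₀ (by positivity)]
    linarith
  calc (d:ℝ) ^ d / Real.exp 1 ^ d * ((2:ℝ) ^ d)⁻¹ ≤ (d.factorial : ℝ) * ((2:ℝ) ^ d)⁻¹ :=
        mul_le_mul_of_nonneg_right h10 (by positivity)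
    _ = (d.factorial : ℝ) * ((2:ℝ) ^ d)⁻¹ * 1 := by ring
    _ ≤ _ := mul_le_mul_of_nonneg_left h8 (by positivity)

theorem Kcl_ge {d : ℕ} (hd : 4 ≤ d) : (d:ℝ) ≤ LTd.Kcl d := by
  have hd4 : (4:ℝ) ≤ d := by exact_mod_cast hd
  have hd0 : (0:ℝ) < d := by linarith
  rw [Pool.Agent.L7h76.LS.Kcl_eq (by omega)]
  have h3 : 0 < Real.Gamma ((d:ℝ) / 2 + 1) := Real.Gamma_pos_of_pos (by positivity)
  have h1 : (d:ℝ) / (2 * Real.exp 1) ≤ Real.Gamma ((d : ℝ) / 2 + 1) ^ ((2:ℝ) / d) := by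
    have h2 := Real.rpow_le_rpow (by positivity) (gamma_ge hd)
      (by positivity : (0:ℝ) ≤ 1 / d)
    rw [← Real.rpow_natCast, ← Real.rpow_mul (by positivity), ← Real.rpow_natCast,
      ← Real.rpow_mul h3.le] at h2
    have e1 : (d:ℝ) * (1 / d) = 1 := by field_simp
    have e2 : ((2:ℕ):ℝ) * (1 / (d:ℝ)) = 2 / d := by push_cast; ring
    rw [e1, e2, Real.rpow_one] at h2
    exact h2
  have h4 : (2:ℝ) / 3 ≤ d / (d + 2) := by
    rw [div_le_div_iff₀ (by norm_num) (by linarith)]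
    linarith
  have he := Real.exp_one_lt_d9
  have hpi := Real.pi_gt_three
  have h5 : (d:ℝ) ≤ 2 / 3 * (4 * π * (d / (2 * Real.exp 1))) := by
    have e : 2 / 3 * (4 * π * ((d:ℝ) / (2 * Real.exp 1))) = (4 / 3 * π / Real.exp 1) * d := by
      field_simp
    rw [e]
    have : 1 ≤ 4 / 3 * π / Real.exp 1 := by
      rw [le_div_iff₀ (Real.exp_pos 1)]
      linarith
    nlinarith
  refine h5.trans ?_
  gcongr

/-- The kinetic inequality in high dimension. -/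
theorem core_of (hWIN : S_WIN) (hASM : S_ASM) (ε : ℝ) (hε : 0 < ε) (hε1 : ε < 1) :
    ∃ d₀ : ℕ, 4 ≤ d₀ ∧ ∀ d : ℕ, d₀ ≤ d → ∀ N₀ : ℝ,
      Core d ((1 - ε) ^ (1 / (d:ℝ)) * LTd.Kcl d) N₀ := by
  obtain ⟨C, hC, hA⟩ := hASM
  obtain ⟨L, hL⟩ := exists_nat_ge (8 / ε)
  have hL0 : (0:ℝ) < L := lt_of_lt_of_le (by positivity) hL
  have hL1 : 1 ≤ L := by exact_mod_cast hL0
  set K : ℝ := ((L:ℝ) + 1) * √(4 * C / ε) with hK
  have hK0 : 0 < K := mul_pos (by positivity) (Real.sqrt_pos.2 (by positivity))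
  obtain ⟨d₁, hd₁⟩ := hWIN (ε / 16) K (by positivity) hK0
  obtain ⟨d₂, hd₂⟩ := exists_nat_ge (ε / (4 * C))
  refine ⟨max 4 (max d₁ d₂), le_max_left _ _, fun d hd N₀ => ?_⟩
  have hd4 : 4 ≤ d := (le_max_left _ _).trans hd
  have hdd₁ : d₁ ≤ d := (le_max_left _ _).trans ((le_max_right _ _).trans hd)
  have hdd₂ : d₂ ≤ d := (le_max_right _ _).trans ((le_max_right _ _).trans hd)
  have hd4' : (4:ℝ) ≤ d := by exact_mod_cast hd4
  have hd0 : (0:ℝ) < d := by linarith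
  intro n F hF hFc hG _
  set ω : ℝ := √(4 * C / ε) * √d with hω
  have hωK : K * √d = ω * (L + 1) := by rw [hK, hω]; ring
  have hω2 : ω ^ 2 = 4 * C / ε * d := by
    rw [hω, mul_pow, Real.sq_sqrt (by positivity), Real.sq_sqrt hd0.le]
  have hω0 : 0 < ω := mul_pos (Real.sqrt_pos.2 (by positivity)) (Real.sqrt_pos.2 hd0)
  have hω1 : 1 ≤ ω := by
    have h1 : 1 ≤ ω ^ 2 := by
      rw [hω2]
      have h2 : ε / (4 * C) ≤ d := hd₂.trans (by exact_mod_cast hdd₂)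
      rw [div_le_iff₀ (by positivity)] at h2
      rw [div_mul_eq_mul_div, le_div_iff₀ hε]
      linarith
    nlinarith
  have hwin := hd₁ d hdd₁
  rw [hωK] at hwin
  have key := hA d L ω (ε / 16) (by omega) hL1 hω1 (by positivity) hwin n F hF hFc hG
  set I := ∫ x, den F x ^ (1 + 2 / (d:ℝ)) with hI
  have hI0 : 0 ≤ I := integral_nonneg fun x => Real.rpow_nonneg (den_nonneg F x) _
  have hkin := kin_nonneg F
  have hKp := Kcl_pos hd4
  have hKg := Kcl_ge hd4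
  show (1 - ε) ^ (1 / (d:ℝ)) * LTd.Kcl d * I ≤ kin F
  set Kc := LTd.Kcl d with hKc
  have hb : (1 - ε) ^ (1 / (d:ℝ)) ≤ 1 - ε / d := by
    have h1 := rpow_one_add_le_one_add_mul_self (s := -ε) (by linarith)
      (p := 1 / (d:ℝ)) (by positivity) (by
        rw [div_le_one hd0]; linarith)
    have e1 : 1 + -ε = 1 - ε := by ring
    have e2 : 1 + 1 / (d:ℝ) * -ε = 1 - ε / d := by ring
    rwa [e1, e2] at h1
  have a1 : 2 / ((d:ℝ) * L) ≤ ε / (4 * d) := by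
    rw [div_le_div_iff₀ (by positivity) (by positivity)]
    rw [div_le_iff₀ hε] at hL
    nlinarith
  have a2 : 4 * (ε / 16) ≤ ε / (4 * d) * Kc := by
    have : ε / (4 * d) * d ≤ ε / (4 * d) * Kc := mul_le_mul_of_nonneg_left hKg (by positivity)
    have e : ε / (4 * (d:ℝ)) * d = ε / 4 := by field_simp
    linarith
  have a3 : C / ω ^ 2 = ε / (4 * d) := by
    rw [hω2]; field_simp
  rw [a3] at key
  set y : ℝ := ε / (4 * d) with hy
  have hy0 : 0 < y := by positivity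
  have hy1 : y ≤ 1 / 16 := by
    rw [hy, div_le_iff₀ (by positivity)]
    linarith
  have e4 : ε / (d:ℝ) = 4 * y := by rw [hy]; field_simp
  rw [e4] at hb
  have b1 : Kc * (1 - 2 * y) ≤ Kc * (1 - 2 / (d * L)) - 4 * (ε / 16) := by
    have : Kc * (2 / (d * L)) ≤ Kc * y := mul_le_mul_of_nonneg_left a1 hKp.le
    linarith
  have b2 : Kc * (1 - 2 * y) * I ≤ (1 + y) * kin F :=
    (mul_le_mul_of_nonneg_right b1 hI0).trans key
  have b3 : (1 - 4 * y) * (1 + y) ≤ 1 - 2 * y := by nlinarith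
  have b4 : (1 + y) * ((1 - ε) ^ (1 / (d:ℝ)) * Kc * I) ≤ (1 + y) * kin F := by
    refine le_trans ?_ b2
    have c1 : (1 + y) * ((1 - ε) ^ (1 / (d:ℝ))) ≤ 1 - 2 * y := by
      have := mul_le_mul_of_nonneg_left hb (by linarith : 0 ≤ 1 + y)
      linarith
    calc (1 + y) * ((1 - ε) ^ (1 / (d:ℝ)) * Kc * I) =
        ((1 + y) * ((1 - ε) ^ (1 / (d:ℝ)))) * (Kc * I) := by ring
      _ ≤ (1 - 2 * y) * (Kc * I) := mul_le_mul_of_nonneg_right c1 (by positivity)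
      _ = _ := by ring
  exact le_of_mul_le_mul_left b4 (by linarith)

end Pool.Agent.L7h99.SC
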