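import Pool.Agent.L7h3.SC.Stm

/-!
Project SC (helper3), part SUB: the choice of a sequence in an infinite set.
-/

set_option autoImplicit false

namespace Pool.Agent.L7h99.SC.Sub

open Filter Topology Pool.Agent.L7h3.SC

variable {E : Type} [NormedAddCommGroup E] [NormedSpace ℝ E]

lemma line_fin {M : Set E} (hfin : ∀ N : Set E, N ⊆ M → Collinear ℝ N → N.Finite) {a b : E}
    (hab : a ≠ b) : {z | z ∈ M ∧ Collinear ℝ {a, b, z}}.Finite := by
  refine hfin _ (fun z hz => hz.1) ?_
  rw [collinear_iff_exists_forall_eq_smul_vadd]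
  refine ⟨a, b - a, ?_⟩
  rintro z ⟨-, hz⟩
  have h1 : z ∈ line[ℝ, a, b] :=
    hz.mem_affineSpan_of_mem_of_ne (by simp) (by simp) (by simp) hab
  have h2 : (z -ᵥ a) +ᵥ a ∈ line[ℝ, a, b] := by rwa [vsub_vadd]
  obtain ⟨r, hr⟩ := vadd_left_mem_affineSpan_pair.mp h2
  refine ⟨r, ?_⟩
  simp only [vsub_eq_sub] at hr
  rw [hr]
  simp

/-- the points of `M` to be avoided -/
def Bad (M : Set E) (F : Finset E) : Set E :=
  (F : Set E) ∪ ⋃ a ∈ F, ⋃ b ∈ F, {z | a ≠ b ∧ z ∈ M ∧ Collinear ℝ {a, b, z}}

lemma bad_fin {M : Set E} (hfin : ∀ N : Set E, N ⊆ M → Collinear ℝ N → N.Finite)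
    (F : Finset E) : (Bad M F).Finite := by
  refine (F.finite_toSet).union ?_
  refine Set.Finite.biUnion F.finite_toSet (fun a _ => ?_)
  refine Set.Finite.biUnion F.finite_toSet (fun b _ => ?_)
  by_cases hab : a = b
  · have : {z | a ≠ b ∧ z ∈ M ∧ Collinear ℝ {a, b, z}} = ∅ := by
      ext z
      simp [hab]
    rw [this]
    exact Set.finite_empty
  · exact (line_fin hfin hab).subset (fun z hz => hz.2)

lemma choice {M : Set E} (hfin : ∀ N : Set E, N ⊆ M → Collinear ℝ N → N.Finite)
    (z : ℕ → E) (hzM : ∀ n, z n ∈ M) (hz : ∀ N : ℕ, (z '' {m | N ≤ m}).Infinite)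
    (F0 : Finset E) :
    ∃ k : ℕ → ℕ, (∀ n, n ≤ k n) ∧ (∀ n, z (k n) ∉ F0) ∧
      (∀ m n, m < n → z (k m) ≠ z (k n)) ∧
      (∀ n, ∀ a ∈ F0, ∀ m, m < n → a ≠ z (k m) → ¬ Collinear ℝ {a, z (k m), z (k n)}) ∧
      (∀ i j n, i < n → j < n → z (k i) ≠ z (k j) →
        ¬ Collinear ℝ {z (k i), z (k j), z (k n)}) := by
  classical
  have hex : ∀ F : Finset E, ∀ n : ℕ, ∃ m : ℕ, n ≤ m ∧ z m ∉ Bad M F := by
    intro F n
    by_contra hcon
    push Not at hcon
    refine hz n ((bad_fin hfin F).subset ?_)
    rintro _ ⟨m, hm, rfl⟩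
    exact hcon m hm
  choose g hg1 hg2 using hex
  let F : ℕ → Finset E := fun n => Nat.rec F0 (fun n G => insert (z (g G n)) G) n
  have hFs : ∀ n, F (n + 1) = insert (z (g (F n) n)) (F n) := fun n => rfl
  let k : ℕ → ℕ := fun n => g (F n) n
  have hF0 : ∀ n, F0 ⊆ F n := by
    intro n
    induction n with
    | zero => exact Finset.Subset.refl _
    | succ n ih => rw [hFs]; exact ih.trans (Finset.subset_insert _ _)
  have hmem : ∀ m n, m < n → z (k m) ∈ F n := by
    intro m n hmn
    induction n with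
    | zero => omega
    | succ n ih =>
      rw [hFs]
      rcases Nat.lt_succ_iff_lt_or_eq.mp hmn with h | h
      · exact Finset.mem_insert_of_mem (ih h)
      · subst h
        exact Finset.mem_insert_self _ _
  have hbad : ∀ n, z (k n) ∉ Bad M (F n) := fun n => hg2 (F n) n
  have hnotF : ∀ n, z (k n) ∉ F n := fun n h => hbad n (Or.inl h)
  have hcol : ∀ n, ∀ a ∈ F n, ∀ b ∈ F n, a ≠ b → ¬ Collinear ℝ {a, b, z (k n)} := by
    intro n a ha b hb hab hc
    refine hbad n (Or.inr ?_)
    simp only [Set.mem_iUnion]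
    exact ⟨a, ha, b, hb, hab, hzM _, hc⟩
  refine ⟨k, fun n => hg1 (F n) n, fun n h => hnotF n (hF0 n h), ?_, ?_, ?_⟩
  · intro m n hmn h
    exact hnotF n (h ▸ hmem m n hmn)
  · intro n a ha m hmn hne
    exact hcol n a (hF0 n ha) _ (hmem m n hmn) hne
  · intro i j n hi hj hne
    exact hcol n _ (hmem i n hi) _ (hmem j n hj) hne

lemma perm1 (a b c : E) : ({a, b, c} : Set E) = {b, c, a} := by
  ext t; simp only [Set.mem_insert_iff, Set.mem_singleton_iff]; tauto

lemma perm2 (a b c : E) : ({a, b, c} : Set E) = {a, c, b} := by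
  ext t; simp only [Set.mem_insert_iff, Set.mem_singleton_iff]; tauto

lemma inj_of {x : ℕ → E} (h : ∀ m n, m < n → x m ≠ x n) : Function.Injective x := by
  intro m n hmn
  rcases lt_trichotomy m n with h1 | h1 | h1
  · exact absurd hmn (h m n h1)
  · exact h1
  · exact absurd hmn.symm (h n m h1)

theorem main [FiniteDimensional ℝ E] (M : Set E) (hM : M.Infinite) :
    ∃ x : ℕ → E, Function.Injective x ∧ (∀ n, x n ∈ M) ∧
    ((∀ i j k, Collinear ℝ {x i, x j, x k}) ∨
     (∃ l, Tendsto x atTop (𝓝 l) ∧ ∀ i j, i ≠ j → ¬ Collinear ℝ {x i, x j, l}) ∨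
     ((∀ a, Tendsto (fun j => dist (x j) (x a)) atTop atTop) ∧
      (∃ u : E, ∀ a, Tendsto (fun j => ‖x j - x a‖⁻¹ • (x j - x a)) atTop (𝓝 u)) ∧
      ∀ i j k, i ≠ j → i ≠ k → j ≠ k → ¬ Collinear ℝ {x i, x j, x k})) := by
  classical
  haveI : ProperSpace E := FiniteDimensional.proper ℝ E
  by_cases hfin : ∀ N : Set E, N ⊆ M → Collinear ℝ N → N.Finite
  · by_cases hb : Bornology.IsBounded M
    · -- bounded case
      obtain ⟨l, -, φ, hφ, hl⟩ := tendsto_subseq_of_bounded hb
        (x := fun n => ((hM.natEmbedding M n : M) : E)) (fun n => (hM.natEmbedding M n).2)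
      set z : ℕ → E := (fun n => ((hM.natEmbedding M n : M) : E)) ∘ φ with hzdef
      have hzinj : Function.Injective z := by
        refine Function.Injective.comp ?_ hφ.injective
        exact Subtype.val_injective.comp (hM.natEmbedding M).injective
      have hzM : ∀ n, z n ∈ M := fun n => (hM.natEmbedding M (φ n)).2
      have hz : ∀ N : ℕ, (z '' {m | N ≤ m}).Infinite := by
        intro N
        exact (Set.Ici_infinite N).image hzinj.injOn
      obtain ⟨k, hk, h1, h2, h3, h4⟩ := choice hfin z hzM hz {l}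
      have hkt : Tendsto k atTop atTop := tendsto_atTop_mono hk tendsto_id
      have hne : ∀ n, l ≠ z (k n) := by
        intro n h
        exact h1 n (by rw [← h]; exact Finset.mem_singleton_self l)
      refine ⟨fun n => z (k n), inj_of h2, fun n => hzM _, Or.inr (Or.inl ⟨l, hl.comp hkt, ?_⟩)⟩
      intro i j hij
      rcases lt_or_gt_of_ne hij with h | h
      · have := h3 j l (Finset.mem_singleton_self l) i h (hne i)
        rwa [perm1] at this
      · have := h3 i l (Finset.mem_singleton_self l) j h (hne j)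
        intro hc
        refine this ?_
        have e : ({l, z (k j), z (k i)} : Set E) = {z (k i), z (k j), l} := by
          ext t; simp only [Set.mem_insert_iff, Set.mem_singleton_iff]; tauto
        rw [e]
        exact hc
    · -- unbounded case
      have hex : ∀ n : ℕ, ∃ y ∈ M, (n : ℝ) ≤ ‖y‖ := by
        intro n
        by_contra hcon
        push Not at hcon
        exact hb (isBounded_iff_forall_norm_le.mpr ⟨n, fun y hy => (hcon y hy).le⟩)
      choose y hyM hyn using hex
      have hyT : Tendsto (fun n => ‖y n‖) atTop atTop :=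
        tendsto_atTop_mono hyn tendsto_natCast_atTop_atTop
      have hbd : ∀ n, ‖y n‖⁻¹ • y n ∈ Metric.closedBall (0 : E) 1 := by
        intro n
        rw [mem_closedBall_zero_iff, norm_smul, norm_inv, norm_norm]
        by_cases h : ‖y n‖ = 0
        · rw [h]; simp
        · rw [inv_mul_cancel₀ h]
      obtain ⟨u, -, φ, hφ, hu⟩ := (isCompact_closedBall (0 : E) 1).tendsto_subseq hbd
      set z : ℕ → E := y ∘ φ with hzdef
      have hzM : ∀ n, z n ∈ M := fun n => hyM _
      have hzT : Tendsto (fun n => ‖z n‖) atTop atTop := hyT.comp hφ.tendsto_atTop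
      have hzu : Tendsto (fun n => ‖z n‖⁻¹ • z n) atTop (𝓝 u) := hu
      have hz : ∀ N : ℕ, (z '' {m | N ≤ m}).Infinite := by
        intro N hf
        obtain ⟨C, hC⟩ := isBounded_iff_forall_norm_le.mp hf.isBounded
        have h1 := (hzT.eventually_gt_atTop C).and (eventually_ge_atTop N)
        obtain ⟨m, hm1, hm2⟩ := h1.exists
        exact absurd (hC (z m) ⟨m, hm2, rfl⟩) (not_le.mpr hm1)
      obtain ⟨k, hk, h1, h2, h3, h4⟩ := choice hfin z hzM hz ∅
      have hkt : Tendsto k atTop atTop := tendsto_atTop_mono hk tendsto_id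
      have hinj : Function.Injective (fun n => z (k n)) := inj_of h2
      have hxT : Tendsto (fun n => ‖z (k n)‖) atTop atTop := hzT.comp hkt
      have hxu : Tendsto (fun n => ‖z (k n)‖⁻¹ • z (k n)) atTop (𝓝 u) := hzu.comp hkt
      have hpos : ∀ᶠ n in atTop, 0 < ‖z (k n)‖ := hxT.eventually_gt_atTop 0
      have hu1 : ‖u‖ = 1 := by
        have ht := hxu.norm
        refine tendsto_nhds_unique ht ?_
        refine tendsto_const_nhds.congr' ?_
        filter_upwards [hpos] with n hn
        rw [norm_smul, norm_inv, norm_norm, inv_mul_cancel₀ hn.ne']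
      refine ⟨fun n => z (k n), hinj, fun n => hzM _, Or.inr (Or.inr ⟨?_, ⟨u, ?_⟩, ?_⟩)⟩
      · intro a
        have h5 : Tendsto (fun j => ‖z (k j)‖ + -‖z (k a)‖) atTop atTop :=
          tendsto_atTop_add_const_right _ _ hxT
        refine tendsto_atTop_mono (fun j => ?_) h5
        rw [dist_eq_norm]
        have := norm_sub_norm_le (z (k j)) (z (k a))
        linarith
      · intro a
        have h6 : Tendsto (fun j => ‖z (k j)‖⁻¹ • z (k a)) atTop (𝓝 ((0 : ℝ) • z (k a))) :=
          (tendsto_inv_atTop_zero.comp hxT).smul_const _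
        have h7 : Tendsto (fun j => ‖z (k j)‖⁻¹ • (z (k j) - z (k a))) atTop (𝓝 u) := by
          have h8 := hxu.sub h6
          rw [zero_smul, sub_zero] at h8
          refine h8.congr (fun j => ?_)
          rw [smul_sub]
        have h9 : Tendsto (fun j => ‖‖z (k j)‖⁻¹ • (z (k j) - z (k a))‖⁻¹ •
            (‖z (k j)‖⁻¹ • (z (k j) - z (k a)))) atTop (𝓝 (‖u‖⁻¹ • u)) :=
          (h7.norm.inv₀ (by rw [hu1]; exact one_ne_zero)).smul h7
        rw [hu1, inv_one, one_smul] at h9
        refine h9.congr' ?_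
        filter_upwards [hpos] with j hj
        rw [norm_smul, norm_inv, norm_norm, smul_smul, mul_inv, inv_inv]
        congr 1
        field_simp
      · intro i j n hij hin hjn
        have hne : ∀ p q, p ≠ q → z (k p) ≠ z (k q) := fun p q hpq h => hpq (hinj h)
        rcases lt_or_gt_of_ne hin with h | h
        · rcases lt_or_gt_of_ne hjn with h' | h'
          · exact h4 i j n h h' (hne i j hij)
          · -- i < n < j
            have := h4 i n j (h.trans h') h' (hne i n hin)
            rwa [perm2] at this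
        · rcases lt_or_gt_of_ne hij with h' | h'
          · -- n < i < j
            have := h4 i n j h' (h.trans h') (hne i n hin)
            rwa [perm2] at this
          · -- i is the largest
            have := h4 j n i h' h (hne j n hjn)
            rwa [← perm1] at this
  · push Not at hfin
    obtain ⟨N, hN, hcol, hinf⟩ := hfin
    have hinf' : N.Infinite := hinf
    refine ⟨fun n => ((hinf'.natEmbedding N n : N) : E), ?_, fun n => hN (hinf'.natEmbedding N n).2,
      Or.inl ?_⟩
    · exact Subtype.val_injective.comp (hinf'.natEmbedding N).injective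
    · intro i j k
      refine hcol.subset ?_
      intro t ht
      simp only [Set.mem_insert_iff, Set.mem_singleton_iff] at ht
      rcases ht with rfl | rfl | rfl
      · exact (hinf'.natEmbedding N i).2
      · exact (hinf'.natEmbedding N j).2
      · exact (hinf'.natEmbedding N k).2

end Pool.Agent.L7h99.SC.Sub

namespace Pool.Agent.L7h99.SC

/-- part SUB -/
theorem s_SUB : Pool.Agent.L7h3.SC.S_SUB := by
  intro E _ _ _ M hM
  exact Sub.main M hM

end Pool.Agent.L7h99.SC
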