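import Pool.Agent.L7h99.LS.Heat

set_option autoImplicit false

/-!
# Project SC: the Lieb-Thirring constant is asymptotically semiclassical

Exact statements of the parts, with sketches. Notation: `G τ` heat kernel of `ℝ^d` at time `τ`
(`(4πτ)^(-d/2) exp(-|z|²/4τ)`), `E τ x y = ENNReal.ofReal (G τ (x - y))`, `T l X μ w κ` the cyclic
chain with `2^l` points (`Pool/Agent/L7h99/LS/Chain.lean`), `LTd.pd k` the partial derivative,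
`LTd.Kcl d` the semiclassical constant, `LTd.bco`, `LTd.Mat`, `LTd.Tm` from `Helper717/LT/Defs`.
-/

open MeasureTheory Set Filter Topology Real
open scoped ENNReal Matrix

namespace Pool.Agent.L7h99.SC

open Pool.Agent.L7h99.LS

/-! ## Part P1: Golden-Thompson with a gain for rough densities -/

/-- `2^i`-fold composition of a kernel, by doubling. -/
noncomputable def It {X : Type} [MeasurableSpace X] (μ : Measure X) :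
    ℕ → (X → X → ℝ≥0∞) → X → X → ℝ≥0∞
  | 0, κ => κ
  | i + 1, κ => fun x y => ∫⁻ z, It μ i κ x z * It μ i κ z y ∂μ

/-- [MIX] Induction on `j`. First generalise `T_amgm` (Chain.lean) to kernels:
`2 * T l (u v w) (κ₁ κ₂ κ₃) ≤ T l (u² w) (κ₁² κ₃) + T l (v² w) (κ₂² κ₃)` (same proof). Base `j = 0`:
`T 1 = ∫∫ κ(x,y) κ(y,x)` and AM-GM, `E` symmetric. Step: with `θ = 2^{-(j+1)}`,
`a = A^θ E^(1-θ)` the kernel of level `j + 2` is `√(a E)`; unfold one level of `T`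
(`T (j+2) X = T (j+1) (X × X)`, weight `√(a E)(p₁,p₂)`, kernel `√(a E)(p₂,q₁)`), use the
generalised AM-GM and `T_marg`, `T_marg'` (Chain.lean) to get `T (j+1) (a ∘ E) + T (j+1) (E ∘ a)`;
Hoelder (`ENNReal.lintegral_mul_norm_pow_le` with the measure `E τ y z dy`) gives
`a ∘ E ≤ (A ∘ E)^θ (E ∘ E)^(1-θ)`, `E τ ∘ E τ ≤ E (2τ)` over `Ω` by `t_SEMI`
(`Pool/Agent/L7h76/LS/Semi.lean`), then the induction hypothesis for `A ∘ E`, `2τ`, Tonelli and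
`t_SEMI` again. -/
def S_MIX : Prop := ∀ (d : ℕ) (Ω : Set (Fin d → ℝ)) (j : ℕ) (τ : ℝ), 0 < τ →
  ∀ A : (Fin d → ℝ) → (Fin d → ℝ) → ℝ≥0∞, Measurable (Function.uncurry A) →
  T (j + 1) _ _ (volume.restrict Ω) (fun _ => 1)
    (fun x y => A x y ^ (((2:ℝ) ^ (j + 1))⁻¹) * E τ x y ^ (1 - ((2:ℝ) ^ (j + 1))⁻¹)) ≤
  ∫⁻ x in Ω, ∫⁻ y in Ω, A x y * E ((2 ^ (j + 1) - 1) * τ) x y

/-- [HOL] Induction on `i`, Hoelder and `E τ ∘ E τ ≤ E (2τ)` over `Ω` (`t_SEMI`). -/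
def S_HOL : Prop := ∀ (d : ℕ) (Ω : Set (Fin d → ℝ)) (θ τ : ℝ), 0 ≤ θ → θ ≤ 1 → 0 < τ →
  ∀ k κ : (Fin d → ℝ) → (Fin d → ℝ) → ℝ≥0∞, Measurable (Function.uncurry k) →
  Measurable (Function.uncurry κ) → (∀ x y, κ x y ≤ k x y ^ θ * E τ x y ^ (1 - θ)) →
  ∀ (i : ℕ) (x y : Fin d → ℝ), It (volume.restrict Ω) i κ x y ≤
    It (volume.restrict Ω) i k x y ^ θ * E (2 ^ i * τ) x y ^ (1 - θ)

/-- [SCH] The property `k` symmetric, `∫ k(x,y) ψ(y) dy ≤ ψ(x)` passes to `It i k`; and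
`∫∫ k ≤ ∫∫ k(x,y) (ψ(y)/ψ(x) + ψ(x)/ψ(y))/2 = ∫∫ k(x,y) ψ(y)/ψ(x) ≤ μ univ`. -/
def S_SCH : Prop := ∀ (X : Type) (m : MeasurableSpace X) (μ : Measure X) [SFinite μ]
  (k : X → X → ℝ≥0∞) (ψ : X → ℝ), Measurable (Function.uncurry k) → (∀ x y, k x y = k y x) →
  Measurable ψ → (∀ x, 0 < ψ x) →
  (∀ x, ∫⁻ y, k x y * ENNReal.ofReal (ψ y) ∂μ ≤ ENNReal.ofReal (ψ x)) →
  ∀ i, ∫⁻ x, ∫⁻ y, It μ i k x y ∂μ ∂μ ≤ μ univ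

/-- [JJ] `E s₂ ^ 2 = (8πs₂)^(-d/2) E (s₂/2)` and the semigroup property at `y = x`. -/
def S_JJ : Prop := ∀ (d : ℕ) (s₁ s₂ : ℝ), 0 < s₁ → 0 < s₂ → ∀ x : Fin d → ℝ,
  ∫⁻ y, E s₁ x y * E s₂ x y ^ 2 =
    ENNReal.ofReal (((√(16 * π ^ 2 * s₂ * (2 * s₁ + s₂)))⁻¹) ^ d)

/-- The heat average. -/
noncomputable def Hv {d : ℕ} (τ : ℝ) (F : (Fin d → ℝ) → ℝ) (x : Fin d → ℝ) : ℝ :=
  ∫ y, G τ (x - y) * F y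

/-- [DIF] Symmetrise: `∫ φ (ψ - G_τ ψ) = 1/2 ∫ G_τ(z) ∫ (φ(x+z)-φ(x)) (ψ(x+z)-ψ(x)) dx dz`,
put `z = √τ y`, the inner integral divided by `τ` tends to `∫ (y·∇φ)(y·∇ψ)` and is at most
`C |y|²`; dominated convergence, `∫ G_1(y) y_i y_j dy = 2 δ_ij`. -/
def S_DIF : Prop := ∀ (d : ℕ) (φ ψ : (Fin d → ℝ) → ℝ), ContDiff ℝ 1 φ → ContDiff ℝ 1 ψ →
  HasCompactSupport φ → HasCompactSupport ψ →
  Tendsto (fun τ : ℝ => τ⁻¹ * ∫ x, φ x * (ψ x - Hv τ ψ x)) (𝓝[>] 0)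
    (𝓝 (∫ x, ∑ k, LTd.pd k φ x * LTd.pd k ψ x))

/-- [CON] Differentiation under the integral, `∂_k (G_τ ψ) = G_τ ∂_k ψ`; uniform continuity of
`ψ` and `∂_k ψ`, `∫_{|z| ≥ r} G_τ → 0`. -/
def S_CON : Prop := ∀ (d : ℕ) (ψ : (Fin d → ℝ) → ℝ), ContDiff ℝ 1 ψ → HasCompactSupport ψ →
  (∀ τ : ℝ, 0 < τ → ContDiff ℝ 1 (Hv τ ψ)) ∧
  ∀ ε : ℝ, 0 < ε → ∃ τ₀ : ℝ, 0 < τ₀ ∧ ∀ τ : ℝ, 0 < τ → τ < τ₀ → ∀ x,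
    |Hv τ ψ x - ψ x| ≤ ε ∧ ∀ k, |LTd.pd k (Hv τ ψ) x - LTd.pd k ψ x| ≤ ε

/-- The density of a family. -/
noncomputable def den {d n : ℕ} (f : Fin n → (Fin d → ℝ) → ℝ) (x : Fin d → ℝ) : ℝ :=
  ∑ i, f i x ^ 2

/-- The kinetic energy of a family. -/
noncomputable def kin {d n : ℕ} (f : Fin n → (Fin d → ℝ) → ℝ) : ℝ :=
  ∫ x, ∑ k, ∑ i, LTd.pd k (f i) x ^ 2

/-- The Fisher information of the density, regularised. -/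
noncomputable def fis {d n : ℕ} (δ : ℝ) (f : Fin n → (Fin d → ℝ) → ℝ) : ℝ :=
  ∫ x, ∑ k, LTd.pd k (den f) x ^ 2 / (den f x + δ)

/-- The ratio `F / G_τ F` for `F = √(σ + δ)`. -/
noncomputable def DD' {d n : ℕ} (τ δ : ℝ) (f : Fin n → (Fin d → ℝ) → ℝ) (x : Fin d → ℝ) : ℝ :=
  √(den f x + δ) / Hv τ (fun y => √(den f y + δ)) x

/-- [LOW2] From [DIF], [CON], `t_LOW` (`Pool/Agent/L7h76/LS/Low.lean`). `F = √(σ+δ)`, `σ = den f`,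
`F - √δ` is `C¹` with compact support, `G_τ √δ = √δ`. The right-hand side is
`Σ ⟨g_i, G_τ g_i⟩`, `g_i = D^a f_i`, at least `Σ ∫ g_i² - τ Σ ∫ |∇ g_i|²` (`t_LOW`). Here
`D^(2a) ≥ 1 + 2a log D ≥ 1 + 2a (F - G_τ F)/F`, so `Σ ∫ g_i² ≥ Λ + 2a ∫ φ (F - G_τ F)` with
`φ = σ/F ∈ C¹_c`, and `τ⁻¹ ∫ φ (F - G_τ F) → ∫ ∇φ·∇F ≥ 1/4 ∫ |∇σ|²/(σ+δ)` because
`∇F·∇φ = |∇σ|²/(2F²) (1 - σ/(2F²))`. By [CON] `D → 1` and `∇ D → 0` uniformly, so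
`Σ ∫ |∇ g_i|² → kin f`. -/
def S_LOW2 : Prop := ∀ (d n : ℕ) (f : Fin n → (Fin d → ℝ) → ℝ), (∀ i, ContDiff ℝ 1 (f i)) →
  (∀ i, HasCompactSupport (f i)) → ∀ δ a ε : ℝ, 0 < δ → 0 < a → a ≤ 1 → 0 < ε →
  ∃ τ₀ : ℝ, 0 < τ₀ ∧ ∀ τ : ℝ, 0 < τ → τ < τ₀ →
    (∫ x, den f x) + τ * (2 * a * (1 / 4 * fis δ f) - kin f - ε) ≤
      ∑ i, ∫ x, ∫ y, f i x * (DD' τ δ f x ^ a * (G τ (x - y) * DD' τ δ f y ^ a) * f i y)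

/-- Gram matrix at most one. -/
def Gram1 {d n : ℕ} (f : Fin n → (Fin d → ℝ) → ℝ) : Prop :=
  ∀ v : Fin n → ℝ, ∫ x, (∑ i, v i * f i x) ^ 2 ≤ ∑ i, v i ^ 2

/-- [GTI] Assembly of P1 (helper99). -/
def S_GTI : Prop := ∀ (d n : ℕ) (f : Fin n → (Fin d → ℝ) → ℝ), (∀ i, ContDiff ℝ 1 (f i)) →
  (∀ i, HasCompactSupport (f i)) → Gram1 f → ∀ Ω : Set (Fin d → ℝ), volume Ω ≠ ∞ →
  (∀ i, ∀ x ∉ Ω, f i x = 0) → 0 < ∫ x, den f x → ∀ δ : ℝ, 0 < δ → ∀ j : ℕ, 1 ≤ j →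
  ∀ s : ℝ, 0 < s →
  s * ((2:ℝ) ^ j)⁻¹ / 8 * fis δ f + (∫ x, den f x) * (Real.log (∫ x, den f x) -
    Real.log (volume Ω).toReal + (d : ℝ) / 2 * Real.log (4 * π * s) +
    (d : ℝ) / 4 * Real.log (1 - (((2:ℝ) ^ j)⁻¹) ^ 2)) ≤ s * kin f

/-! ## Part P2: coherent states in one direction -/

/-- Cosine and sine coefficients. -/
noncomputable def cc (ℓ : ℝ) (k : ℤ) (b : ℝ → ℝ) : ℝ := ∫ t, b t * Real.cos (π * k / ℓ * t)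

/-- Cosine and sine coefficients. -/
noncomputable def ss (ℓ : ℝ) (k : ℤ) (b : ℝ → ℝ) : ℝ := ∫ t, b t * Real.sin (π * k / ℓ * t)

/-- [PAR] Parseval for a continuous function supported in a period (`fourierCoeffOn` on
`[x - ℓ, x + ℓ]`, `tsum_sq_fourierCoeff` or `hasSum_sq_fourierCoeffOn`), and Bessel for the
derivative (integration by parts, `b (x ± ℓ) = 0`). -/
def S_PAR : Prop := ∀ (ℓ x : ℝ), 0 < ℓ → ∀ b : ℝ → ℝ, Continuous b →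
  (∀ t, ℓ ≤ |t - x| → b t = 0) →
  HasSum (fun k : ℤ => (cc ℓ k b ^ 2 + ss ℓ k b ^ 2) / (2 * ℓ)) (∫ t, b t ^ 2) ∧
  (ContDiff ℝ 1 b → ∀ S : Finset ℤ,
    ∑ k ∈ S, (π * k / ℓ) ^ 2 * ((cc ℓ k b ^ 2 + ss ℓ k b ^ 2) / (2 * ℓ)) ≤ ∫ t, deriv b t ^ 2)

/-- [BTH] The bathtub: for `E = π² r²`, `Σ ω_k² a_k ≥ E r - (1/2ℓ) Σ_{k ∈ S} (E - ω_k²)_+` and
`Σ_{k ∈ ℤ} (E - ω_k²)_+ ≤ E + (2ℓ/π) (2/3) E^(3/2)` (decreasing in `|k|`, comparison with the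
integral), so `≥ π² r³/3 - π² r²/(2ℓ)`; then AM-GM
`π² r²/(2ℓ) ≤ η π² r³/3 + 3π²/(16ηℓ²) r`. -/
def S_BTH : Prop := ∀ (ℓ η : ℝ), 0 < ℓ → 0 < η → ∀ (S : Finset ℤ) (a : ℤ → ℝ),
  (∀ k ∈ S, 0 ≤ a k ∧ a k ≤ 1 / (2 * ℓ)) →
  π ^ 2 / 3 * (1 - η) * (∑ k ∈ S, a k) ^ 3 - 3 * π ^ 2 / (16 * η * ℓ ^ 2) * ∑ k ∈ S, a k ≤
    ∑ k ∈ S, (π * k / ℓ) ^ 2 * a k

/-- [GRM] From [BTH]. `e_j = r_j^(-1/2) Σ_q V_qj w_q` for `r_j > 0` is a unit vector and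
`∫ w_p e_j = r_j^(1/2) V_pj`; apply [BTH] to `a_k = Σ_{p : κ p = k} r_j V_pj²` (sum `r_j`), sum
over `j`, `Σ_j r_j V_pj² = ∫ w_p²`. -/
def S_GRM : Prop := ∀ (ℓ η : ℝ), 0 < ℓ → 0 < η → ∀ (m N : ℕ) (w : Fin N → (Fin m → ℝ) → ℝ)
  (κ : Fin N → ℤ), (∀ p, Continuous (w p)) → (∀ p, HasCompactSupport (w p)) →
  (∀ e : (Fin m → ℝ) → ℝ, Continuous e → HasCompactSupport e → ∀ k : ℤ,
    ∑ p, (if κ p = k then (∫ y, w p y * e y) ^ 2 else 0) ≤ 1 / (2 * ℓ) * ∫ y, e y ^ 2) →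
  ∀ (V : LTd.Mat N) (r : Fin N → ℝ), V * Vᵀ = 1 → Vᵀ * V = 1 → (∀ j, 0 ≤ r j) →
  (Matrix.of fun p q => ∫ y, w p y * w q y : LTd.Mat N) = V * Matrix.diagonal r * Vᵀ →
  π ^ 2 / 3 * (1 - η) * ∑ j, r j ^ 3 ≤
    ∑ p, (π * κ p / ℓ) ^ 2 * (∫ y, w p y ^ 2) + 3 * π ^ 2 / (16 * η * ℓ ^ 2) * ∑ p, ∫ y, w p y ^ 2

/-- The slice of `f` at `y`, multiplied by `g (t - x)`, as a function of `t`. -/
noncomputable def bsl {m : ℕ} (g : ℝ → ℝ) (x : ℝ) (f : (Fin (m + 1) → ℝ) → ℝ)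
    (y : Fin m → ℝ) (t : ℝ) : ℝ := g (t - x) * f (Fin.cons t y)

/-- [SLC] From [PAR], [GRM], `LTd.T_all`, `LTd.T_slice`, `LTd.specP` (Helper717/LT) for the finite
family `w_(i,k,1) = (2ℓ)^(-1/2) cc ℓ k (bsl g x (f i) y)`, `w_(i,k,2)` with `ss`, `k ∈ [-K, K]`,
which are `C¹` with compact support in `y` (differentiation under the integral). The hypothesis
of [GRM] is Bessel's inequality for `Gram1 f` and `φ(t,y) = g(t-x) cos(πkt/ℓ) e(y)`: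
`Σ_i (∫ f_i φ)² ≤ ∫ φ²`, likewise with the sine, `cos² + sin² = 1`, `∫ g² = 1`. Then
`∫ Σ (w_p)_y-derivatives² ≤ ...` and `Σ (πk/ℓ)² ∫ w_p² ≤ ...` by [PAR] pointwise in `y`. -/
def S_SLC : Prop := ∀ (ℓ η x : ℝ), 0 < ℓ → 0 < η → η < 1 → ∀ g : ℝ → ℝ, ContDiff ℝ 1 g →
  (∀ t, ℓ ≤ |t| → g t = 0) → ∫ t, g t ^ 2 = 1 → ∀ (m n : ℕ) (f : Fin n → (Fin (m + 1) → ℝ) → ℝ),
  (∀ i, ContDiff ℝ 1 (f i)) → (∀ i, HasCompactSupport (f i)) → Gram1 f → ∀ K : ℕ,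
  LTd.bco (m / 2) (3 / 2) (π ^ 2 / 3 * (1 - η)) *
    (∫ y : Fin m → ℝ, (∑ i, ∑ k ∈ Finset.Icc (-(K:ℤ)) K, (cc ℓ k (bsl g x (f i) y) ^ 2 +
      ss ℓ k (bsl g x (f i) y) ^ 2) / (2 * ℓ)) ^ (1 + 2 / ((m:ℝ) + 1))) ≤
  (∫ y : Fin m → ℝ, ∑ i, ∫ t, (g (t - x) ^ 2 *
      (∑ k : Fin m, LTd.pd k.succ (f i) (Fin.cons t y : Fin (m + 1) → ℝ) ^ 2))) +
    (∫ y : Fin m → ℝ, ∑ i, ∫ t, deriv (bsl g x (f i) y) t ^ 2) +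
    3 * π ^ 2 / (16 * η * ℓ ^ 2) * ∫ y : Fin m → ℝ, ∑ i, ∫ t, bsl g x (f i) y t ^ 2

/-- [BCO] As `LTd.const_final` (Helper717/LT/P_const_final.lean), from it by homogeneity:
`bco h g a = (JJ h g)^(..) a^((g-1)/(g+h-1))`. -/
def S_BCO : Prop := ∀ (m : ℕ) (η : ℝ), 0 < η → η < 1 →
  LTd.bco (m / 2) (3 / 2) (π ^ 2 / 3 * (1 - η)) =
    (1 - η) ^ (1 / ((m:ℝ) + 1)) * LTd.Kcl (m + 1)

/-- [A0] From [SLC], [PAR], [BCO]: `K → ∞` (monotone convergence, the sums increase to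
`Σ_i ∫ bsl²`), then integrate over `x ∈ ℝ`: `∫ g(t-x)² dx = 1`,
`∫ (∂_t (g(t-x) f))² dx = f_t² + f² ∫ g'²` (the cross term `∫ g g' = 0`). -/
def S_A0 : Prop := ∀ (ℓ η : ℝ), 0 < ℓ → 0 < η → η < 1 → ∀ g : ℝ → ℝ, ContDiff ℝ 1 g →
  (∀ t, ℓ ≤ |t| → g t = 0) → ∫ t, g t ^ 2 = 1 → ∀ (m n : ℕ) (f : Fin n → (Fin (m + 1) → ℝ) → ℝ),
  (∀ i, ContDiff ℝ 1 (f i)) → (∀ i, HasCompactSupport (f i)) → Gram1 f →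
  (1 - η) ^ (1 / ((m:ℝ) + 1)) * LTd.Kcl (m + 1) *
    (∫ x : ℝ, ∫ y : Fin m → ℝ, (∫ t, g (t - x) ^ 2 *
      den f (Fin.cons t y : Fin (m + 1) → ℝ)) ^ (1 + 2 / ((m:ℝ) + 1))) ≤
  kin f + ((∫ t, deriv g t ^ 2) + 3 * π ^ 2 / (16 * η * ℓ ^ 2)) * ∫ x, den f x

/-- [SM0] From [A0]. `g(t) = ℓ^(-1/2) g₁(t/ℓ)` with a fixed `C¹` function `g₁` supported in
`(-1,1)`, `∫ g₁² = 1`. With `σ = den f ≤ B`, `ψ(t,y) = min B (σ(t,y) + ∫_{|s| ≤ ℓ} |∂_0 σ(t+s,y)| ds)`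
one has `ψ(t + s, y) ≥ σ(t, y)` for `|s| ≤ ℓ` and `∫ (ψ - σ) ≤ 2ℓ ∫ |∂_0 σ|`; with
`q = 1 + 2/(m+1)` and Young `b^q ≥ q ψ^(q-1) b - (q-1) ψ^q`:
`∫ (σ * g²)^q ≥ q ∫ ψ^(q-1) (σ * g²) - (q-1) ∫ ψ^q ≥ q ∫ σ^q - (q-1) ∫ ψ^q`
`≥ ∫ σ^q - (q-1) q B^(q-1) ∫ (ψ - σ)`. -/
def S_SM0 : Prop := ∃ C₀ : ℝ, 0 < C₀ ∧ ∀ (ℓ η B : ℝ), 0 < ℓ → 0 < η → η < 1 → 0 < B →
  ∀ (m n : ℕ) (f : Fin n → (Fin (m + 1) → ℝ) → ℝ),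
  (∀ i, ContDiff ℝ 1 (f i)) → (∀ i, HasCompactSupport (f i)) → Gram1 f → (∀ x, den f x ≤ B) →
  (1 - η) ^ (1 / ((m:ℝ) + 1)) * LTd.Kcl (m + 1) *
    ((∫ x, den f x ^ (1 + 2 / ((m:ℝ) + 1))) -
      12 / ((m:ℝ) + 1) * B ^ (2 / ((m:ℝ) + 1)) * ℓ * ∫ x, |LTd.pd 0 (den f) x|) ≤
  kin f + C₀ / (η * ℓ ^ 2) * ∫ x, den f x

/-- [PRM] From [SM0] for the functions `x ↦ f i (x ∘ Equiv.swap 0 k)`. -/
def S_SMK : Prop := ∃ C₀ : ℝ, 0 < C₀ ∧ ∀ (ℓ η B : ℝ), 0 < ℓ → 0 < η → η < 1 → 0 < B →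
  ∀ (m n : ℕ) (f : Fin n → (Fin (m + 1) → ℝ) → ℝ) (k : Fin (m + 1)),
  (∀ i, ContDiff ℝ 1 (f i)) → (∀ i, HasCompactSupport (f i)) → Gram1 f → (∀ x, den f x ≤ B) →
  (1 - η) ^ (1 / ((m:ℝ) + 1)) * LTd.Kcl (m + 1) *
    ((∫ x, den f x ^ (1 + 2 / ((m:ℝ) + 1))) -
      12 / ((m:ℝ) + 1) * B ^ (2 / ((m:ℝ) + 1)) * ℓ * ∫ x, |LTd.pd k (den f) x|) ≤
  kin f + C₀ / (η * ℓ ^ 2) * ∫ x, den f x

/-! ## Part P4, P5: windows -/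

/-- The inequality for densities in a window. -/
def WinIneq (d : ℕ) (ε W : ℝ) : Prop := ∀ A : ℝ, 0 < A → ∀ Ω : Set (Fin d → ℝ),
  MeasurableSet Ω → volume Ω ≠ ∞ → ∀ (n : ℕ) (f : Fin n → (Fin d → ℝ) → ℝ),
  (∀ i, ContDiff ℝ 1 (f i)) → (∀ i, HasCompactSupport (f i)) → (∀ i, ∀ x ∉ Ω, f i x = 0) →
  Gram1 f → (∀ x, den f x ≤ A * Real.exp W) →
  LTd.Kcl d * (∫ x, den f x ^ (1 + 2 / (d:ℝ))) ≤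
    kin f + ε * A ^ (2 / (d:ℝ)) * ((∫ x, den f x) + A * (volume Ω).toReal)

/-- [WIN] From [GTI], [SMK] (helper99). -/
def S_WIN : Prop := ∀ ε K : ℝ, 0 < ε → 0 < K → ∃ d₀ : ℕ, ∀ d : ℕ, d₀ ≤ d →
  WinIneq d ε (K * √d)

/-- The window functions with a plateau: `t = log r / ω - c + w L`, transition for `t ∈ [0,1]`
and `t ∈ [-L, -(L-1)]`, equal to one between. `ang` is from `Pool/Agent/L7h99/LS/Cut.lean`. -/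
noncomputable def pw (ang : ℝ → ℝ) (ω c : ℝ) (L w : ℕ) (r : ℝ) : ℝ :=
  if 0 < r then Real.cos (ang (max (Real.log r / ω - c + w * L) 0 +
    min (Real.log r / ω - c + w * L + (L - 1)) 0)) else 0

/-- [ASM] Assembly over the windows, a modification of `Pool/Agent/L7h99/LS/Cut.lean` and
`Final.lean` (`local_err`, `main_bound`) for the windows `pw ang ω c L w` (`w ∈ ℕ`, `ang` as in
`Cut.lean`, `C` a bound of its derivative). With `ρ = den F ≤ R`, `c ≥ log R / ω`,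
`f_w = pw_w(ρ) F`, `Ω_w = {pw_w(ρ) ≠ 0}`, where `A_w ≤ ρ ≤ A_w e^W`, `A_w = exp(ω(c - wL - L))`,
`W = ω(L+1)`. (i) `Σ_w kin f_w ≤ (1 + 4C²/ω²) kin F`; (ii) `[WIN]` for each `w`; on `Ω_w`
`A_w^(2/d) ≤ ρ^(2/d)` and `A_w |Ω_w| ≤ ∫_{Ω_w} ρ`, each point is in at most two `Ω_w`, so the
errors sum to at most `4ε ∫ ρ^q`; (iii) `Σ_w pw_w^(2q) ≥ 1 - (2/d) 1_{transition}`
(`x^q ≥ x + (2/d) x log x`, `x log x ≥ -1/e`); the `L` shifts `c, c+1, …, c+L-1` have disjoint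
transition regions, so for one of them `∫_{transition} ρ^q ≤ (1/L) ∫ ρ^q`; (iv) finitely many
windows `w < M` and `M → ∞` (the rest is at most `e^{-cM} ∫ ρ`). -/
def S_ASM : Prop := ∃ C : ℝ, 0 < C ∧ ∀ (d L : ℕ) (ω ε : ℝ), 1 ≤ d → 1 ≤ L → 1 ≤ ω → 0 < ε →
  WinIneq d ε (ω * (L + 1)) → ∀ (n : ℕ) (F : Fin n → (Fin d → ℝ) → ℝ),
  (∀ i, ContDiff ℝ 1 (F i)) → (∀ i, HasCompactSupport (F i)) → Gram1 F →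
  (LTd.Kcl d * (1 - 2 / (d * L)) - 4 * ε) * (∫ x, den F x ^ (1 + 2 / (d:ℝ))) ≤
    (1 + C / ω ^ 2) * kin F

end Pool.Agent.L7h99.SC
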