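import Pool.Agent.L7h99.SC.Stm
import Pool.Agent.L7h99.LS.Final
import Pool.Agent.L7h76.LS.Num

set_option autoImplicit false

/-!
# The inequality in a window
-/

open MeasureTheory Set Filter Topology Real
open scoped ENNReal

namespace Pool.Agent.L7h99.SC

open Pool.Agent.L7h99.LS

variable {d : ℕ}

section basic

variable {n : ℕ} {f : Fin n → (Fin d → ℝ) → ℝ}

theorem den_nonneg (f : Fin n → (Fin d → ℝ) → ℝ) (x : Fin d → ℝ) : 0 ≤ den f x :=
  Finset.sum_nonneg fun _ _ => sq_nonneg _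

theorem den_C1 (hf : ∀ i, ContDiff ℝ 1 (f i)) : ContDiff ℝ 1 (den f) :=
  ContDiff.sum fun i _ => (hf i).pow 2

theorem den_supp (hfc : ∀ i, HasCompactSupport (f i)) : HasCompactSupport (den f) := by
  refine HasCompactSupport.intro (K := ⋃ i, tsupport (f i))
    (isCompact_iUnion fun i => hfc i) fun x hx => ?_
  refine Finset.sum_eq_zero fun i _ => ?_
  have : x ∉ tsupport (f i) := fun hx' => hx (mem_iUnion.2 ⟨i, hx'⟩)
  rw [image_eq_zero_of_notMem_tsupport this]; simp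

theorem pd_den (hf : ∀ i, ContDiff ℝ 1 (f i)) (x : Fin d → ℝ) (k : Fin d) :
    LTd.pd k (den f) x = 2 * ∑ i, f i x * LTd.pd k (f i) x := pd_rho hf x k

theorem pd_den_sq (hf : ∀ i, ContDiff ℝ 1 (f i)) (x : Fin d → ℝ) (k : Fin d) :
    LTd.pd k (den f) x ^ 2 ≤ 4 * den f x * ∑ i, LTd.pd k (f i) x ^ 2 := by
  have h1 := Finset.sum_mul_sq_le_sq_mul_sq Finset.univ (fun i => f i x)
      (fun i => LTd.pd k (f i) x)
  rw [pd_den hf x k]
  have h2 : den f x = ∑ i, f i x ^ 2 := rfl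
  rw [h2]
  nlinarith

theorem kin_integrable (hf : ∀ i, ContDiff ℝ 1 (f i)) (hfc : ∀ i, HasCompactSupport (f i)) :
    Integrable fun x => ∑ k, ∑ i, LTd.pd k (f i) x ^ 2 := by
  refine integrable_finsetSum _ fun k _ => integrable_finsetSum _ fun i _ => ?_
  have h := LTd.pd_basic (hf i) (hfc i) k
  exact (h.1.pow 2).integrable_of_hasCompactSupport (by
      have := h.2.mul_right (f' := LTd.pd k (f i))
      simpa only [sq] using this)

theorem fis_integrable (hf : ∀ i, ContDiff ℝ 1 (f i)) (hfc : ∀ i, HasCompactSupport (f i))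
    {δ : ℝ} (hδ : 0 < δ) (k : Fin d) :
    Integrable fun x => LTd.pd k (den f) x ^ 2 / (den f x + δ) := by
  have h := LTd.pd_basic (den_C1 hf) (den_supp hfc) k
  have hc : Continuous fun x => LTd.pd k (den f) x ^ 2 / (den f x + δ) :=
    (h.1.pow 2).div ((den_C1 hf).continuous.add continuous_const) fun x => by
      have := den_nonneg f x
      positivity
  refine hc.integrable_of_hasCompactSupport ?_
  have h2 : HasCompactSupport fun x => LTd.pd k (den f) x * (LTd.pd k (den f) x / (den f x + δ)) :=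
    h.2.mul_right
  have e : (fun x => LTd.pd k (den f) x ^ 2 / (den f x + δ)) =
      fun x => LTd.pd k (den f) x * (LTd.pd k (den f) x / (den f x + δ)) := by
    funext x; ring
  rw [e]; exact h2

theorem fis_le (hf : ∀ i, ContDiff ℝ 1 (f i)) (hfc : ∀ i, HasCompactSupport (f i))
    {δ : ℝ} (hδ : 0 < δ) : fis δ f ≤ 4 * kin f := by
  unfold fis kin
  rw [← integral_const_mul]
  refine integral_mono (integrable_finsetSum _ fun k _ => fis_integrable hf hfc hδ k)
    ((kin_integrable hf hfc).const_mul 4) fun x => ?_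
  show ∑ k, LTd.pd k (den f) x ^ 2 / (den f x + δ) ≤ 4 * ∑ k, ∑ i, LTd.pd k (f i) x ^ 2
  rw [Finset.mul_sum]
  refine Finset.sum_le_sum fun k _ => ?_
  have h0 := den_nonneg f x
  have h2 : 0 ≤ ∑ i, LTd.pd k (f i) x ^ 2 := Finset.sum_nonneg fun i _ => sq_nonneg _
  rw [div_le_iff₀ (by positivity)]
  have := pd_den_sq hf x k
  nlinarith

theorem fis_nonneg (f : Fin n → (Fin d → ℝ) → ℝ) {δ : ℝ} (hδ : 0 < δ) : 0 ≤ fis δ f :=
  integral_nonneg fun x => Finset.sum_nonneg fun k _ => by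
    have := den_nonneg f x
    positivity

theorem kin_nonneg (f : Fin n → (Fin d → ℝ) → ℝ) : 0 ≤ kin f :=
  integral_nonneg fun x => Finset.sum_nonneg fun k _ => Finset.sum_nonneg fun i _ => sq_nonneg _

/-- One direction with small total variation. -/
theorem exists_dir (hd : 1 ≤ d) (hf : ∀ i, ContDiff ℝ 1 (f i))
    (hfc : ∀ i, HasCompactSupport (f i)) {Ω : Set (Fin d → ℝ)} (hΩm : MeasurableSet Ω)
    (hΩ : volume Ω ≠ ∞) (hf0 : ∀ i, ∀ x ∉ Ω, f i x = 0) {δ t : ℝ} (hδ : 0 < δ) (ht : 0 < t) :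
    ∃ k : Fin d, ∫ x, |LTd.pd k (den f) x| ≤
      t / 2 * ((∫ x, den f x) + δ * (volume Ω).toReal) + fis δ f / (2 * t * d) := by
  have hd0 : (0:ℝ) < d := by exact_mod_cast hd
  have hk : ∀ k : Fin d, ∫ x, |LTd.pd k (den f) x| ≤
      t / 2 * ((∫ x, den f x) + δ * (volume Ω).toReal) +
        (∫ x, LTd.pd k (den f) x ^ 2 / (den f x + δ)) / (2 * t) := by
    intro k
    have hdi : Integrable (den f) :=
      (den_C1 hf).continuous.integrable_of_hasCompactSupport (den_supp hfc)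
    have h1 : Integrable (Ω.indicator fun x => (1:ℝ)) :=
      (integrable_indicator_iff hΩm).2 (integrableOn_const hΩ)
    have e1 : ∫ x, Ω.indicator (fun x => (1:ℝ)) x = (volume Ω).toReal := by
      rw [integral_indicator hΩm, setIntegral_const, smul_eq_mul, mul_one, Measure.real]
    have e2 : t / 2 * ((∫ x, den f x) + δ * (volume Ω).toReal) +
        (∫ x, LTd.pd k (den f) x ^ 2 / (den f x + δ)) / (2 * t) =
        ∫ x, ((t / 2 * (den f x + δ * Ω.indicator (fun x => (1:ℝ)) x)) +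
          (LTd.pd k (den f) x ^ 2 / (den f x + δ)) / (2 * t)) := by
      have j1 : Integrable fun x => t / 2 * (den f x + δ * Ω.indicator (fun x => (1:ℝ)) x) :=
        (hdi.add (h1.const_mul δ)).const_mul _
      have j2 : Integrable fun x => δ * Ω.indicator (fun x => (1:ℝ)) x := h1.const_mul δ
      rw [integral_add j1 ((fis_integrable hf hfc hδ k).div_const _), integral_const_mul,
        integral_add hdi j2, integral_const_mul, e1, integral_div]
    rw [e2]
    have hp := LTd.pd_basic (den_C1 hf) (den_supp hfc) k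
    refine integral_mono (hp.1.integrable_of_hasCompactSupport hp.2).abs
      (((hdi.add (h1.const_mul δ)).const_mul _).add
        ((fis_integrable hf hfc hδ k).div_const _)) fun x => ?_
    show |LTd.pd k (den f) x| ≤ (t / 2 * (den f x + δ * Ω.indicator (fun x => (1:ℝ)) x)) +
          (LTd.pd k (den f) x ^ 2 / (den f x + δ)) / (2 * t)
    have h0 := den_nonneg f x
    by_cases hx : x ∈ Ω
    · rw [indicator_of_mem hx, mul_one]
      set S := den f x + δ with hS
      have hS0 : 0 < S := by positivity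
      set u := |LTd.pd k (den f) x| with hu
      have hu2 : LTd.pd k (den f) x ^ 2 = u ^ 2 := (sq_abs _).symm
      rw [hu2]
      have e3 : t / 2 * S + u ^ 2 / S / (2 * t) - u = (t * S - u) ^ 2 / (2 * t * S) := by
        field_simp
        ring
      have : 0 ≤ (t * S - u) ^ 2 / (2 * t * S) := by positivity
      linarith
    · rw [indicator_of_notMem hx]
      have h3 : LTd.pd k (den f) x = 0 := by
        rw [pd_den hf x k]
        simp [hf0 _ x hx]
      rw [h3]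
      simp
      positivity
  by_contra hcon
  push Not at hcon
  have hne : (Finset.univ : Finset (Fin d)).Nonempty := ⟨⟨0, by omega⟩, Finset.mem_univ _⟩
  have h1 := Finset.sum_lt_sum_of_nonempty hne fun k _ => hcon k
  have h2 := Finset.sum_le_sum fun (k : Fin d) (_ : k ∈ Finset.univ) => hk k
  rw [Finset.sum_add_distrib, ← Finset.sum_div,
    ← integral_finsetSum _ fun k _ => fis_integrable hf hfc hδ k] at h2
  rw [Finset.sum_const, Finset.card_univ, Fintype.card_fin] at h1 h2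
  have e5 : (∫ x, ∑ k, LTd.pd k (den f) x ^ 2 / (den f x + δ)) = fis δ f := rfl
  rw [e5] at h2
  simp only [nsmul_eq_mul] at h1 h2
  have e6 : (d:ℝ) * (t / 2 * ((∫ x, den f x) + δ * (volume Ω).toReal) + fis δ f / (2 * t * d)) =
      d * (t / 2 * ((∫ x, den f x) + δ * (volume Ω).toReal)) + fis δ f / (2 * t) := by
    field_simp
  rw [e6] at h1
  linarith

theorem pow_int_le (hf : ∀ i, ContDiff ℝ 1 (f i))
    (hfc : ∀ i, HasCompactSupport (f i)) {B : ℝ} (hB : 0 < B) (hfB : ∀ x, den f x ≤ B)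
    {p : ℝ} (hp : 0 < p) : ∫ x, den f x ^ (1 + p) ≤ B ^ p * ∫ x, den f x := by
  have hdc : Continuous (den f) := (den_C1 hf).continuous
  have h1 : ∀ x, den f x ^ (1 + p) ≤ B ^ p * den f x := by
    intro x
    rcases (den_nonneg f x).eq_or_lt with h | h
    · rw [← h, Real.zero_rpow (by positivity)]; simp
    · rw [Real.rpow_add h, Real.rpow_one, mul_comm]
      exact mul_le_mul_of_nonneg_right (Real.rpow_le_rpow h.le (hfB x) hp.le) h.le
  rw [← integral_const_mul]
  refine integral_mono_of_nonneg (Eventually.of_forall fun x =>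
    Real.rpow_nonneg (den_nonneg f x) _) ?_ (Eventually.of_forall h1)
  exact (hdc.integrable_of_hasCompactSupport (den_supp hfc)).const_mul _

end basic

theorem Kcl_pos {d : ℕ} (hd : 4 ≤ d) : 0 < LTd.Kcl d := by
  rw [Pool.Agent.L7h76.LS.Kcl_eq (by omega)]
  have h1 : 0 < Real.Gamma ((d : ℝ) / 2 + 1) := Real.Gamma_pos_of_pos (by positivity)
  positivity

/-- The constant bounding `Kcl d / d`. -/
noncomputable def C1 : ℝ := 2 * π / Real.exp 1 * Real.exp 8

theorem C1_pos : 0 < C1 := by unfold C1; positivity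

theorem Kcl_lin {d : ℕ} (hd : 4 ≤ d) : LTd.Kcl d ≤ C1 * d := by
  have hd0 : (0:ℝ) < d := by positivity
  have hd4 : (4:ℝ) ≤ d := by exact_mod_cast hd
  have h := Pool.Agent.L7h76.LS.Kcl_le hd
  have h1 : (4 + 4 * Real.log d) / d ≤ 8 := by
    rw [div_le_iff₀ hd0]
    have := Real.log_le_sub_one_of_pos hd0
    linarith
  have h2 : Real.exp ((4 + 4 * Real.log d) / d) ≤ Real.exp 8 := Real.exp_le_exp.2 h1
  calc _ ≤ _ := h
    _ ≤ 2 * π * d / Real.exp 1 * Real.exp 8 := mul_le_mul_of_nonneg_left h2 (by positivity)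
    _ = C1 * d := by unfold C1; ring

/-- The smooth case. -/
theorem win_smooth {C₀ : ℝ} (hC₀ : 0 < C₀)
    (hS : ∀ (ℓ η B : ℝ), 0 < ℓ → 0 < η → η < 1 → 0 < B →
      ∀ (m n : ℕ) (f : Fin n → (Fin (m + 1) → ℝ) → ℝ) (k : Fin (m + 1)),
      (∀ i, ContDiff ℝ 1 (f i)) → (∀ i, HasCompactSupport (f i)) → Gram1 f → (∀ x, den f x ≤ B) →
      (1 - η) ^ (1 / ((m:ℝ) + 1)) * LTd.Kcl (m + 1) *
        ((∫ x, den f x ^ (1 + 2 / ((m:ℝ) + 1))) -
          12 / ((m:ℝ) + 1) * B ^ (2 / ((m:ℝ) + 1)) * ℓ * ∫ x, |LTd.pd k (den f) x|) ≤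
      kin f + C₀ / (η * ℓ ^ 2) * ∫ x, den f x)
    (hd : 4 ≤ d) {A W η t₁ : ℝ} (hA : 0 < A) (hW2 : Real.exp (2 * W / d) ≤ 2) (hη : 0 < η)
    (hη2 : η ≤ 1 / 2) (ht₁ : 0 < t₁) {Ω : Set (Fin d → ℝ)} (hΩm : MeasurableSet Ω)
    (hΩ : volume Ω ≠ ∞) {n : ℕ} {f : Fin n → (Fin d → ℝ) → ℝ} (hf : ∀ i, ContDiff ℝ 1 (f i))
    (hfc : ∀ i, HasCompactSupport (f i)) (hf0 : ∀ i, ∀ x ∉ Ω, f i x = 0) (hG : Gram1 f)
    (hB : ∀ x, den f x ≤ A * Real.exp W) {δ : ℝ} (hδ : 0 < δ)
    (hδV : δ * (volume Ω).toReal ≤ ∫ x, den f x)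
    (hfis : fis δ f ≤ 2 * t₁ ^ 2 * (d * A ^ (2 / (d:ℝ))) * ∫ x, den f x) :
    LTd.Kcl d * (∫ x, den f x ^ (1 + 2 / (d:ℝ))) ≤ kin f +
      A ^ (2 / (d:ℝ)) * (∫ x, den f x) * (η + 4 * η * C1 + 48 * C1 * √C₀ * t₁ / η) := by
  have hd0 : (0:ℝ) < d := by positivity
  obtain ⟨m, rfl⟩ : ∃ m, d = m + 1 := ⟨d - 1, by omega⟩
  set E : ℝ := A ^ (2 / ((m + 1 : ℕ):ℝ)) with hE
  have hE0 : 0 < E := Real.rpow_pos_of_pos hA _
  set Λ : ℝ := ∫ x, den f x with hΛ
  have hΛ0 : 0 ≤ Λ := integral_nonneg fun x => den_nonneg f x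
  set ℓ : ℝ := √(C₀ / E) / η with hℓ
  have hℓ0 : 0 < ℓ := div_pos (Real.sqrt_pos.2 (by positivity)) hη
  have hB0 : 0 < A * Real.exp W := by positivity
  obtain ⟨k, hk⟩ := exists_dir (by omega) hf hfc hΩm hΩ hf0 hδ
    (mul_pos ht₁ (Real.sqrt_pos.2 hE0) : 0 < t₁ * √E)
  have h1 := hS ℓ η (A * Real.exp W) hℓ0 hη (by linarith) hB0 m n f k hf hfc hG hB
  set X := ∫ x, |LTd.pd k (den f) x| with hX
  have hcast : ((m:ℝ) + 1) = ((m + 1 : ℕ) : ℝ) := by push_cast; ring
  rw [hcast] at h1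
  set D : ℝ := ((m + 1 : ℕ) : ℝ) with hD
  set I := ∫ x, den f x ^ (1 + 2 / D) with hI
  have hI0 : 0 ≤ I := integral_nonneg fun x => Real.rpow_nonneg (den_nonneg f x) _
  have hBE : (A * Real.exp W) ^ (2 / D) = E * Real.exp (2 * W / D) := by
    rw [Real.mul_rpow hA.le (Real.exp_pos _).le, ← Real.exp_mul]
    congr 2
    ring
  have hBE2 : (A * Real.exp W) ^ (2 / D) ≤ 2 * E := by
    rw [hBE]; nlinarith
  have hI1 : I ≤ 2 * E * Λ := (pow_int_le hf hfc hB0 hB (by positivity)).trans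
    (mul_le_mul_of_nonneg_right hBE2 hΛ0)
  have hsE : √E * √E = E := Real.mul_self_sqrt hE0.le
  have hsE0 : 0 < √E := Real.sqrt_pos.2 hE0
  have hX1 : X ≤ 2 * t₁ * √E * Λ := by
    refine hk.trans ?_
    have a1 : t₁ * √E / 2 * (Λ + δ * (volume Ω).toReal) ≤ t₁ * √E * Λ := by
      have : t₁ * √E / 2 * (Λ + δ * (volume Ω).toReal) ≤ t₁ * √E / 2 * (Λ + Λ) :=
        mul_le_mul_of_nonneg_left (by linarith) (by positivity)
      linarith
    have a2 : fis δ f / (2 * (t₁ * √E) * D) ≤ t₁ * √E * Λ := by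
      rw [div_le_iff₀ (by positivity)]
      refine hfis.trans (le_of_eq ?_)
      calc 2 * t₁ ^ 2 * (D * E) * Λ = 2 * t₁ ^ 2 * (D * (√E * √E)) * Λ := by rw [hsE]
        _ = _ := by ring
    linarith
  have hX0 : 0 ≤ X := integral_nonneg fun x => abs_nonneg _
  have hKp := Kcl_pos hd
  have hKl : LTd.Kcl (m + 1) ≤ C1 * D := Kcl_lin hd
  set c := (1 - η) ^ (1 / D) with hc
  have hc1 : c ≤ 1 := Real.rpow_le_one (by linarith) (by linarith) (by positivity)
  have hc0 : 0 ≤ c := Real.rpow_nonneg (by linarith) _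
  have hc2 : 1 - 2 * η / D ≤ c := by
    rw [hc, Real.rpow_def_of_pos (by linarith)]
    have a1 : -(2 * η) ≤ Real.log (1 - η) := by
      have a2 := Real.one_sub_inv_le_log_of_pos (by linarith : 0 < 1 - η)
      have a3 : 1 - (1 - η)⁻¹ = -(η / (1 - η)) := by
        have : 1 - η ≠ 0 := by linarith
        field_simp
        ring
      rw [a3] at a2
      have a4 : η / (1 - η) ≤ 2 * η := by
        rw [div_le_iff₀ (by linarith)]
        nlinarith
      linarith
    have a5 := Real.add_one_le_exp (Real.log (1 - η) * (1 / D))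
    have a6 : -(2 * η) * (1 / D) ≤ Real.log (1 - η) * (1 / D) :=
      mul_le_mul_of_nonneg_right a1 (by positivity)
    have a7 : -(2 * η) * (1 / D) = -(2 * η / D) := by ring
    linarith
  have hCℓ : C₀ / (η * ℓ ^ 2) = η * E := by
    rw [hℓ, div_pow, Real.sq_sqrt (by positivity)]
    field_simp
  rw [hCℓ] at h1
  set Kc := LTd.Kcl (m + 1) with hKc
  -- the error terms
  have b1 : Kc * I * (2 * η / D) ≤ 4 * η * C1 * (E * Λ) := by
    have : Kc * I ≤ (C1 * D) * (2 * E * Λ) := mul_le_mul hKl hI1 hI0 (by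
      have := C1_pos
      positivity)
    calc Kc * I * (2 * η / D) ≤ (C1 * D) * (2 * E * Λ) * (2 * η / D) :=
          mul_le_mul_of_nonneg_right this (by positivity)
      _ = _ := by field_simp; ring
  have hsC : √(C₀ / E) * √E = √C₀ := by
    rw [← Real.sqrt_mul (by positivity)]
    congr 1
    field_simp
  have b2 : c * Kc * (12 / D * (A * Real.exp W) ^ (2 / D) * ℓ * X) ≤
      48 * C1 * √C₀ * t₁ / η * (E * Λ) := by
    have a1 : c * Kc ≤ 1 * (C1 * D) := mul_le_mul hc1 hKl hKp.le (by norm_num)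
    have a2 : 12 / D * (A * Real.exp W) ^ (2 / D) * ℓ * X ≤
        12 / D * (2 * E) * ℓ * (2 * t₁ * √E * Λ) := by
      refine mul_le_mul ?_ hX1 hX0 (by positivity)
      refine mul_le_mul_of_nonneg_right ?_ hℓ0.le
      exact mul_le_mul_of_nonneg_left hBE2 (by positivity)
    have a3 : 0 ≤ 12 / D * (A * Real.exp W) ^ (2 / D) * ℓ * X := by
      have : 0 ≤ (A * Real.exp W) ^ (2 / D) := Real.rpow_nonneg hB0.le _
      positivity
    refine (mul_le_mul a1 a2 a3 (by have := C1_pos; positivity)).trans (le_of_eq ?_)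
    rw [hℓ, ← hsC]
    field_simp
    ring
  have h2 : Kc * I * (1 - 2 * η / D) ≤ c * Kc * I := by
    have := mul_le_mul_of_nonneg_right hc2 (mul_nonneg hKp.le hI0 : 0 ≤ Kc * I)
    linarith
  nlinarith

/-- The rough case. -/
theorem win_rough (hGTI : S_GTI) (hd : 4 ≤ d) {A W ε' ι₀ : ℝ} (hA : 0 < A) (hW0 : 0 ≤ W)
    (hW1 : 4 * W / d ≤ 1) (hε' : 0 < ε') (hι₀ : 0 < ι₀)
    (hcond : 2 / (d:ℝ) * (3 + 2 * Real.log d + Real.log (1 / ε')) + 4 * W / d ≤ ι₀ ^ 2 / 512)
    {Ω : Set (Fin d → ℝ)}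
    (hΩ : volume Ω ≠ ∞) {n : ℕ} {f : Fin n → (Fin d → ℝ) → ℝ} (hf : ∀ i, ContDiff ℝ 1 (f i))
    (hfc : ∀ i, HasCompactSupport (f i)) (hf0 : ∀ i, ∀ x ∉ Ω, f i x = 0) (hG : Gram1 f)
    (hB : ∀ x, den f x ≤ A * Real.exp W) {δ : ℝ} (hδ : 0 < δ)
    (hV0 : 0 < (volume Ω).toReal) (hΛ0 : 0 < ∫ x, den f x)
    (hfis : ι₀ * ((1 + 2 / (d:ℝ)) * LTd.Kcl d * A ^ (2 / (d:ℝ)) * ∫ x, den f x) ≤ fis δ f) :
    LTd.Kcl d * (∫ x, den f x ^ (1 + 2 / (d:ℝ))) ≤ kin f +
      2 * ((1 + 2 / (d:ℝ)) * LTd.Kcl d * A ^ (2 / (d:ℝ))) * ε' / d * (A * (volume Ω).toReal) := by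
  have hd0 : (0:ℝ) < d := by positivity
  have hd4 : (4:ℝ) ≤ d := by exact_mod_cast hd
  set E : ℝ := A ^ (2 / (d:ℝ)) with hE
  have hE0 : 0 < E := Real.rpow_pos_of_pos hA _
  have hKp := Kcl_pos hd
  set Kc := LTd.Kcl d with hKc
  set EA : ℝ := (1 + 2 / (d:ℝ)) * Kc * E with hEA
  have hEA0 : 0 < EA := by positivity
  set Λ : ℝ := ∫ x, den f x with hΛ
  set V := (volume Ω).toReal with hV
  set I := ∫ x, den f x ^ (1 + 2 / (d:ℝ)) with hI
  have hB0 : 0 < A * Real.exp W := by positivity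
  have hBE : (A * Real.exp W) ^ (2 / (d:ℝ)) = E * Real.exp (2 * W / d) := by
    rw [Real.mul_rpow hA.le (Real.exp_pos _).le, ← Real.exp_mul]
    congr 2
    ring
  have hexpW : Real.exp (2 * W / d) ≤ 1 + 4 * W / d := by
    have h0 : 0 ≤ 2 * W / d := by positivity
    have e : 4 * W / d = 2 * (2 * W / d) := by ring
    have h1 := Real.abs_exp_sub_one_sub_id_le (x := 2 * W / d) (by
      rw [abs_of_nonneg h0]; linarith)
    have h2 := (abs_le.1 h1).2
    rw [e]
    nlinarith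
  have hKE : Kc * E ≤ EA := by
    rw [hEA]
    have : (0:ℝ) ≤ 2 / d * (Kc * E) := by positivity
    nlinarith
  have hKI : Kc * I ≤ EA * (1 + 4 * W / d) * Λ := by
    have h1 : I ≤ (A * Real.exp W) ^ (2 / (d:ℝ)) * Λ := pow_int_le hf hfc hB0 hB (by positivity)
    rw [hBE] at h1
    calc Kc * I ≤ Kc * (E * Real.exp (2 * W / d) * Λ) := mul_le_mul_of_nonneg_left h1 hKp.le
      _ = (Kc * E) * Real.exp (2 * W / d) * Λ := by ring
      _ ≤ EA * (1 + 4 * W / d) * Λ := by
        refine mul_le_mul_of_nonneg_right ?_ hΛ0.le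
        exact mul_le_mul hKE hexpW (Real.exp_pos _).le hEA0.le
  set ι : ℝ := fis δ f / (EA * Λ) with hι
  have hιf : fis δ f = ι * (EA * Λ) := by rw [hι]; field_simp
  have hι1 : ι₀ ≤ ι := by
    rw [hι, le_div_iff₀ (by positivity)]
    exact hfis
  have hι0 : 0 < ι := hι₀.trans_le hι1
  have hrest : 0 ≤ 2 * EA * ε' / d * (A * V) := by positivity
  rcases le_or_gt ι 8 with h8 | h8
  swap
  · -- large Fisher information
    have h1 := fis_le hf hfc hδ
    rw [hιf] at h1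
    have h2 : 2 * (EA * Λ) ≤ kin f := by
      have : 8 * (EA * Λ) ≤ ι * (EA * Λ) := mul_le_mul_of_nonneg_right h8.le (by positivity)
      linarith
    have : EA * (1 + 4 * W / d) * Λ ≤ EA * (1 + 1) * Λ :=
      mul_le_mul_of_nonneg_right (mul_le_mul_of_nonneg_left (by linarith) hEA0.le) hΛ0.le
    linarith
  · -- the dyadic scale
    obtain ⟨p, hp1, hp2⟩ := exists_nat_pow_near_of_lt_one (x := ι / 16) (y := (1 / 2 : ℝ))
      (by positivity) (by linarith) (by norm_num) (by norm_num)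
    set x : ℝ := ((2:ℝ) ^ (p + 1))⁻¹ with hx
    have hxe : x = (1 / 2) ^ (p + 1) := by rw [hx, one_div, inv_pow]
    have hx1 : x < ι / 16 := by rw [hxe]; exact hp1
    have hx2 : ι / 32 ≤ x := by
      rw [hxe, pow_succ]
      linarith
    have hx0 : 0 < x := by positivity
    have hxh : x ≤ 1 / 2 := by linarith
    set s : ℝ := d / (2 * EA) with hs
    have hs0 : 0 < s := by positivity
    have hg := hGTI d n f hf hfc hG Ω hΩ hf0 hΛ0 δ hδ (p + 1) (by omega) s hs0
    rw [← hx, ← hΛ, ← hV, hιf] at hg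
    -- the logarithms
    have l1 : (d:ℝ) / 2 - 3 - 2 * Real.log d - Real.log A ≤ (d:ℝ) / 2 * Real.log (4 * π * s) := by
      have e1 : 4 * π * s = 2 * π * d / EA := by rw [hs]; field_simp; ring
      rw [e1, Real.log_div (by positivity) hEA0.ne', hEA, Real.log_mul (by positivity) hE0.ne',
        Real.log_mul (by positivity) hKp.ne', hE, Real.log_rpow hA]
      have a1 : Real.log Kc ≤ Real.log (2 * π * d) - 1 + (4 + 4 * Real.log d) / d := by
        have h := Real.log_le_log hKp (Pool.Agent.L7h76.LS.Kcl_le hd)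
        rw [Real.log_mul (by positivity) (by positivity), Real.log_exp,
          Real.log_div (by positivity) (by positivity), Real.log_exp] at h
        exact h
      have a2 : Real.log (1 + 2 / (d:ℝ)) ≤ 2 / d := by
        have := Real.log_le_sub_one_of_pos (by positivity : (0:ℝ) < 1 + 2 / d)
        linarith
      have a3 : (d:ℝ) / 2 * (Real.log (2 * π * d) - (2 / d + (Real.log (2 * π * d) - 1 +
          (4 + 4 * Real.log d) / d) + 2 / d * Real.log A)) =
          (d:ℝ) / 2 - 3 - 2 * Real.log d - Real.log A := by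
        field_simp
        ring
      rw [← a3]
      refine mul_le_mul_of_nonneg_left ?_ (by positivity)
      linarith
    have l2 : -((d:ℝ) / 3 * x ^ 2) ≤ (d:ℝ) / 4 * Real.log (1 - x ^ 2) := by
      have hx3 : x ^ 2 ≤ 1 / 4 := by nlinarith
      have a1 := Real.one_sub_inv_le_log_of_pos (by linarith : 0 < 1 - x ^ 2)
      have a2 : 1 - (1 - x ^ 2)⁻¹ = -(x ^ 2 / (1 - x ^ 2)) := by
        have : 1 - x ^ 2 ≠ 0 := by linarith
        field_simp
        ring
      rw [a2] at a1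
      have a3 : x ^ 2 / (1 - x ^ 2) ≤ 4 / 3 * x ^ 2 := by
        rw [div_le_iff₀ (by linarith)]
        nlinarith
      have a4 : (d:ℝ) / 4 * (-(4 / 3 * x ^ 2)) ≤ (d:ℝ) / 4 * Real.log (1 - x ^ 2) :=
        mul_le_mul_of_nonneg_left (by linarith) (by positivity)
      linarith
    have l3 : Λ * (Real.log A + Real.log V - Real.log Λ) ≤
        ε' * (A * V) + Λ * Real.log (1 / ε') := by
      have a1 := Real.log_le_sub_one_of_pos (by positivity : 0 < ε' * (A * V) / Λ)
      rw [Real.log_div (by positivity) hΛ0.ne', Real.log_mul hε'.ne' (by positivity),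
        Real.log_mul hA.ne' hV0.ne'] at a1
      have a2 := mul_le_mul_of_nonneg_left a1 hΛ0.le
      have a3 : Λ * (ε' * (A * V) / Λ - 1) = ε' * (A * V) - Λ := by field_simp
      rw [a3] at a2
      rw [one_div, Real.log_inv]
      nlinarith
    have l4 : ι ^ 2 / 1024 ≤ x * ι / 16 - x ^ 2 / 3 := by
      have : 0 ≤ (x - ι / 32) * (ι / 16 - x) := mul_nonneg (by linarith) (by linarith)
      nlinarith
    have g1 : s * x / 8 * (ι * (EA * Λ)) = Λ * (d * (x * ι / 16)) := by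
      rw [hs]; field_simp; ring
    rw [g1] at hg
    set R : ℝ := 3 + 2 * Real.log d + Real.log (1 / ε') with hR
    have g2 : Λ * (d / 2 + d * (ι ^ 2 / 1024) - R) - ε' * (A * V) ≤ s * kin f := by
      have b1 : Λ * (d * (ι ^ 2 / 1024)) ≤ Λ * (d * (x * ι / 16) - d / 3 * x ^ 2) := by
        refine mul_le_mul_of_nonneg_left ?_ hΛ0.le
        have := mul_le_mul_of_nonneg_left l4 hd0.le
        linarith
      have b2 : Λ * ((d:ℝ) / 2 - 3 - 2 * Real.log d - Real.log A) ≤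
          Λ * ((d:ℝ) / 2 * Real.log (4 * π * s)) := mul_le_mul_of_nonneg_left l1 hΛ0.le
      have b3 : Λ * (-((d:ℝ) / 3 * x ^ 2)) ≤ Λ * ((d:ℝ) / 4 * Real.log (1 - x ^ 2)) :=
        mul_le_mul_of_nonneg_left l2 hΛ0.le
      rw [hR]
      nlinarith
    have hsE : 2 * EA / d * s = 1 := by rw [hs]; field_simp
    have g3 := mul_le_mul_of_nonneg_left g2 (by positivity : 0 ≤ 2 * EA / d)
    have e1 : 2 * EA / d * (s * kin f) = kin f := by rw [← mul_assoc, hsE, one_mul]
    rw [e1] at g3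
    have e2 : 2 * EA / d * (Λ * (d / 2 + d * (ι ^ 2 / 1024) - R) - ε' * (A * V)) =
        EA * Λ * (1 + ι ^ 2 / 512 - 2 / d * R) - 2 * EA * ε' / d * (A * V) := by
      field_simp
      ring
    rw [e2] at g3
    have g4 : 1 + 4 * W / d ≤ 1 + ι ^ 2 / 512 - 2 / d * R := by
      have : ι₀ ^ 2 ≤ ι ^ 2 := pow_le_pow_left₀ hι₀.le hι1 2
      linarith
    have g5 := mul_le_mul_of_nonneg_left g4 (by positivity : 0 ≤ EA * Λ)
    linarith

end Pool.Agent.L7h99.SC
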