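import Pool.Agent.L7h99.SC.Win

set_option autoImplicit false

/-!
# The inequality in a window, for all large dimensions
-/

open MeasureTheory Set Filter Topology Real
open scoped ENNReal

namespace Pool.Agent.L7h99.SC

open Pool.Agent.L7h99.LS

theorem win_num (K R₁ ι₀ : ℝ) (hι₀ : 0 < ι₀) : ∃ d₀ : ℕ, ∀ d : ℕ, d₀ ≤ d → 4 ≤ d ∧
    4 * (K * √d) / d ≤ 1 ∧ 2 / (d:ℝ) * (3 + 2 * Real.log d + R₁) + 4 * (K * √d) / d ≤
      ι₀ ^ 2 / 512 := by
  have h1 : Tendsto (fun d : ℕ => 4 * (K * √d) / d) atTop (𝓝 0) := by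
    have a1 : Tendsto (fun d : ℕ => 4 * K * (√(d:ℝ))⁻¹) atTop (𝓝 (4 * K * 0)) := by
      refine Tendsto.const_mul _ ?_
      exact tendsto_inv_atTop_zero.comp (Real.tendsto_sqrt_atTop.comp tendsto_natCast_atTop_atTop)
    rw [mul_zero] at a1
    refine a1.congr' ?_
    filter_upwards [eventually_ge_atTop 1] with d hd
    have hd0 : (0:ℝ) < d := by exact_mod_cast hd
    have h2 : √(d:ℝ) * √(d:ℝ) = d := Real.mul_self_sqrt hd0.le
    have h3 : 0 < √(d:ℝ) := Real.sqrt_pos.2 hd0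
    field_simp
    rw [sq, h2]
  have h2 : Tendsto (fun d : ℕ => 2 / (d:ℝ) * (3 + 2 * Real.log d + R₁)) atTop (𝓝 0) := by
    have a1 : Tendsto (fun d : ℕ => Real.log d / (d:ℝ)) atTop (𝓝 0) := by
      have := Real.isLittleO_log_id_atTop.tendsto_div_nhds_zero
      exact this.comp tendsto_natCast_atTop_atTop
    have a2 : Tendsto (fun d : ℕ => (1:ℝ) / d) atTop (𝓝 0) := tendsto_one_div_atTop_nhds_zero_nat
    have a3 := (a2.const_mul (2 * (3 + R₁))).add (a1.const_mul 4)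
    simp only [mul_zero, add_zero] at a3
    refine a3.congr fun d => ?_
    ring
  have h3 := h2.add h1
  rw [add_zero] at h3
  have e1 := h1.eventually (ge_mem_nhds (by norm_num : (0:ℝ) < 1))
  have e2 := h3.eventually (ge_mem_nhds (by positivity : (0:ℝ) < ι₀ ^ 2 / 512))
  obtain ⟨d₀, hd₀⟩ := eventually_atTop.1 ((eventually_ge_atTop 4).and (e1.and e2))
  exact ⟨d₀, fun d hd => ⟨(hd₀ d hd).1, (hd₀ d hd).2.1, (hd₀ d hd).2.2⟩⟩

theorem win_of (hGTI : S_GTI) (hSMK : S_SMK) : S_WIN := by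
  intro ε K hε hK
  obtain ⟨C₀, hC₀, hS⟩ := hSMK
  have hC1 := C1_pos
  set η : ℝ := min (1 / 2) (ε / (3 * (4 * C1 + 1))) with hη
  have hη0 : 0 < η := lt_min (by norm_num) (by positivity)
  have hη2 : η ≤ 1 / 2 := min_le_left _ _
  have hη3 : η + 4 * η * C1 ≤ ε / 3 := by
    have h := min_le_right (1 / 2) (ε / (3 * (4 * C1 + 1)))
    rw [← hη, le_div_iff₀ (by positivity)] at h
    linarith
  have hsC : 0 < √C₀ := Real.sqrt_pos.2 hC₀
  set t₁ : ℝ := ε * η / (144 * C1 * √C₀) with ht₁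
  have ht₁0 : 0 < t₁ := by positivity
  have ht3 : 48 * C1 * √C₀ * t₁ / η = ε / 3 := by
    rw [ht₁]; field_simp; ring
  set ι₀ : ℝ := 2 * t₁ ^ 2 / (3 * C1) with hι₀
  have hι0 : 0 < ι₀ := by positivity
  set ε' : ℝ := ε / (6 * C1) with hε'
  have hε'0 : 0 < ε' := by positivity
  obtain ⟨d₀, hd₀⟩ := win_num K (Real.log (1 / ε')) ι₀ hι0
  refine ⟨d₀, fun d hd => ?_⟩
  obtain ⟨hd4, hn1, hn2⟩ := hd₀ d hd
  intro A hA Ω hΩm hΩ n f hf hfc hf0 hG hB
  have hd0 : (0:ℝ) < d := by positivity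
  have hd4' : (4:ℝ) ≤ d := by exact_mod_cast hd4
  set W : ℝ := K * √d with hW
  have hW0 : 0 ≤ W := by positivity
  set E : ℝ := A ^ (2 / (d:ℝ)) with hE
  have hE0 : 0 < E := Real.rpow_pos_of_pos hA _
  have hKp := Kcl_pos hd4
  have hKl := Kcl_lin hd4
  have hΛ0 : 0 ≤ ∫ x, den f x := integral_nonneg fun x => den_nonneg f x
  have hV0 : 0 ≤ (volume Ω).toReal := ENNReal.toReal_nonneg
  have hB0 : 0 < A * Real.exp W := by positivity
  rcases hΛ0.eq_or_lt with h0 | hΛ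
  · -- zero mass
    have h1 := pow_int_le (p := 2 / (d:ℝ)) hf hfc hB0 hB (by positivity)
    rw [← h0, mul_zero] at h1
    have h2 : LTd.Kcl d * ∫ x, den f x ^ (1 + 2 / (d:ℝ)) ≤ 0 :=
      mul_nonpos_of_nonneg_of_nonpos hKp.le h1
    have h3 := kin_nonneg f
    have h4 : 0 ≤ ε * E * ((∫ x, den f x) + A * (volume Ω).toReal) := by positivity
    linarith
  have hV : 0 < (volume Ω).toReal := by
    refine ENNReal.toReal_pos (fun h0 => hΛ.ne' ?_) hΩ
    have h1 : ∫ x, den f x = ∫ x in Ω, den f x :=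
      (setIntegral_eq_integral_of_forall_compl_eq_zero fun x hx => by
        simp [den, hf0 _ x hx]).symm
    rw [h1, Measure.restrict_eq_zero.2 h0, integral_zero_measure]
  set Λ := ∫ x, den f x with hΛd
  set V := (volume Ω).toReal with hVd
  set δ : ℝ := Λ / V with hδ
  have hδ0 : 0 < δ := by positivity
  have hδV : δ * V = Λ := by rw [hδ]; field_simp
  have h2W : Real.exp (2 * W / d) ≤ 2 := by
    have h0 : 0 ≤ 2 * W / d := by positivity
    have e : 4 * W / d = 2 * (2 * W / d) := by ring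
    have h1 := Real.abs_exp_sub_one_sub_id_le (x := 2 * W / d) (by
      rw [abs_of_nonneg h0]; linarith)
    have h2 := (abs_le.1 h1).2
    nlinarith
  have h1d : 1 + 2 / (d:ℝ) ≤ 3 := by
    have : 2 / (d:ℝ) ≤ 2 / 4 := div_le_div_of_nonneg_left (by norm_num) (by norm_num) hd4'
    linarith
  by_cases hf1 : fis δ f ≤ 2 * t₁ ^ 2 * (d * E) * Λ
  · have h := win_smooth hC₀ hS hd4 hA h2W hη0 hη2 ht₁0 hΩm hΩ hf hfc hf0 hG hB hδ0 hδV.le hf1
    have h3 : E * Λ * (η + 4 * η * C1 + 48 * C1 * √C₀ * t₁ / η) ≤ ε * E * (Λ + A * V) := by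
      have a1 : η + 4 * η * C1 + 48 * C1 * √C₀ * t₁ / η ≤ ε := by rw [ht3]; linarith
      have a2 : E * Λ * (η + 4 * η * C1 + 48 * C1 * √C₀ * t₁ / η) ≤ E * Λ * ε :=
        mul_le_mul_of_nonneg_left a1 (by positivity)
      have a3 : 0 ≤ ε * E * (A * V) := by positivity
      linarith
    linarith
  · have hf2 : ι₀ * ((1 + 2 / (d:ℝ)) * LTd.Kcl d * E * Λ) ≤ fis δ f := by
      refine le_trans ?_ (not_le.1 hf1).le
      have a1 : (1 + 2 / (d:ℝ)) * LTd.Kcl d ≤ 3 * (C1 * d) :=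
        mul_le_mul h1d hKl hKp.le (by norm_num)
      calc ι₀ * ((1 + 2 / (d:ℝ)) * LTd.Kcl d * E * Λ)
          ≤ ι₀ * (3 * (C1 * d) * E * Λ) := by gcongr
        _ = _ := by rw [hι₀]; field_simp
    have h := win_rough hGTI hd4 hA hW0 hn1 hε'0 hι0 hn2 hΩ hf hfc hf0 hG hB hδ0 hV hΛ hf2
    have h3 : 2 * ((1 + 2 / (d:ℝ)) * LTd.Kcl d * E) * ε' / d * (A * V) ≤ ε * E * (Λ + A * V) := by
      have a1 : (1 + 2 / (d:ℝ)) * LTd.Kcl d ≤ 3 * (C1 * d) :=
        mul_le_mul h1d hKl hKp.le (by norm_num)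
      have a2 : 2 * ((1 + 2 / (d:ℝ)) * LTd.Kcl d * E) * ε' / d * (A * V) ≤
          2 * (3 * (C1 * d) * E) * ε' / d * (A * V) := by gcongr
      have a3 : 2 * (3 * (C1 * d) * E) * ε' / d * (A * V) = ε * E * (A * V) := by
        rw [hε']; field_simp; ring
      have a4 : 0 ≤ ε * E * Λ := by positivity
      linarith
    linarith

end Pool.Agent.L7h99.SC
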